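import Pool.Agent.H564R3.DR.Count

set_option autoImplicit false

open MeasureTheory Set

namespace Pool.Agent.H564R3.DR

/-- the label of a tile -/
def lab (T : Tile F3) : Fin 3 := T.1

lemma tl_lab (T : Tile F3) : tl (lab T) T.2 = T := rfl

/-- tiles of `P` inside the region of `S ⊆ P` belong to `S` -/
lemma mem_of_sub {P S : Set (Tile F3)} (hP : Packing P) (hS : S ⊆ P) {T : Tile F3} (hT : T ∈ P)
    (h : carrier T ⊆ region S) : T ∈ S := by
  let y : E 2 := WithLp.toLp 2 (fun i => T.2 i + 1 / 2)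
  have hy : ∀ i, y i = T.2 i + 1 / 2 := fun i => rfl
  have h1 : y ∈ carrier T := by
    rw [carrier_F3]
    intro i
    rw [hy]
    constructor <;> linarith
  have h2 := h h1
  rw [region_F3] at h2
  simp only [Set.mem_iUnion] at h2
  obtain ⟨T', hT', h3⟩ := h2
  by_cases he : T = T'
  · rw [he]; exact hT'
  · exfalso
    obtain ⟨i, hi⟩ := (packing_F3 P).mp hP T hT T' (hS hT') he
    have h4 := h3 i
    rw [hy] at h4
    rcases le_abs.mp hi with h | h <;> linarith [h4.1, h4.2]

lemma sub_region {S : Set (Tile F3)} {T : Tile F3} (hT : T ∈ S) : carrier T ⊆ region S :=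
  Set.subset_biUnion_of_mem hT

lemma countType_eq {P : Set (Tile F3)} (hP : Packing P) (S : Finset (Tile F3))
    (hS : (S : Set (Tile F3)) ⊆ P) (t : Fin 3) :
    countType P (t : F3.ι) (region (S : Set (Tile F3))) = (XX S t).card := by
  classical
  unfold countType
  have h1 : {T ∈ P | T.1 = (t : F3.ι) ∧ carrier T ⊆ region (S : Set (Tile F3))} =
      (tl t) '' (XX S t : Set (E 2)) := by
    ext T
    constructor
    · rintro ⟨h1, h2, h3⟩
      have h4 := mem_of_sub hP hS h1 h3
      refine ⟨T.2, ?_, ?_⟩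
      · rw [Finset.mem_coe, mem_XX]
        have : tl t T.2 = T := by
          ext1
          · exact h2.symm
          · rfl
        rw [this]
        exact_mod_cast h4
      · ext1
        · exact h2.symm
        · rfl
    · rintro ⟨v, hv, rfl⟩
      rw [Finset.mem_coe, mem_XX] at hv
      exact ⟨hS (by exact_mod_cast hv), rfl, sub_region (by exact_mod_cast hv)⟩
  rw [h1, Set.ncard_image_of_injective _ (fun v w h => congrArg Prod.snd h), Set.ncard_coe_finset]

lemma countPattern_eq {P : Set (Tile F3)} (hP : Packing P) (S Q : Finset (Tile F3))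
    (hS : (S : Set (Tile F3)) ⊆ P) (T0 : Tile F3) (hT0 : T0 ∈ Q) (off : Tile F3 → ℤ × ℤ)
    (hoff : ∀ T ∈ Q, T.2 = T0.2 + zv (off T).1 (off T).2) (N : Finset (E 2))
    (hN : ∀ v, v ∈ N ↔ ∀ T ∈ Q, tl (lab T) (v + zv (off T).1 (off T).2) ∈ S) :
    countPattern P (Q : Set (Tile F3)) (region (S : Set (Tile F3))) = N.card := by
  classical
  unfold countPattern
  have h1 : {u : E 2 | ∀ T ∈ shift u (Q : Set (Tile F3)), T ∈ P ∧
      carrier T ⊆ region (S : Set (Tile F3))} = (fun v => v - T0.2) '' (N : Set (E 2)) := by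
    ext u
    constructor
    · intro h
      refine ⟨u + T0.2, ?_, by simp⟩
      rw [Finset.mem_coe, hN]
      intro T hT
      have h2 := h (T.1, u + T.2) ⟨T, hT, rfl⟩
      have h3 := mem_of_sub hP hS h2.1 h2.2
      have h4 : u + T0.2 + zv (off T).1 (off T).2 = u + T.2 := by
        rw [hoff T hT, add_assoc]
      rw [h4]
      exact_mod_cast h3
    · rintro ⟨v, hv, rfl⟩ T ⟨T', hT', rfl⟩
      rw [Finset.mem_coe, hN] at hv
      have h2 := hv T' hT'
      have h4 : v + zv (off T').1 (off T').2 = v - T0.2 + T'.2 := by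
        rw [hoff T' hT']; abel
      rw [h4] at h2
      have h5 : tl (lab T') (v - T0.2 + T'.2) ∈ (S : Set (Tile F3)) := by exact_mod_cast h2
      exact ⟨hS h5, sub_region h5⟩
  rw [h1, Set.ncard_image_of_injective _ (fun v w h => by simpa using h), Set.ncard_coe_finset]

/-- from integer boundary counts to the Hausdorff measure of the boundary -/
lemma bound_of (S : Finset (Tile F3)) (hp : Packing (S : Set (Tile F3)))
    (hA : Aligned (S : Set (Tile F3))) (N : ℕ) (δ : ℝ) (c : ℝ) (hc : 0 ≤ c)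
    (h : ∀ B : ℕ, bd (posn S) (zv 1 0) ≤ B → bd (posn S) (zv 0 1) ≤ B →
      |(N : ℝ) - δ * S.card| ≤ c * B) :
    Bound N δ c (region (S : Set (Tile F3))) := by
  unfold Bound
  have hv := vol_region (S : Set (Tile F3)) (Finset.finite_toSet S) hp
  rw [Set.ncard_coe_finset] at hv
  rw [hv]
  have e1 : ((2 : ℕ) - 1 : ℝ) = 1 := by norm_num
  rw [e1]
  set B := max (bd (posn S) (zv 1 0)) (bd (posn S) (zv 0 1)) with hB
  have h1 := h B (le_max_left _ _) (le_max_right _ _)
  have hB2 : (B : ENNReal) ≤ Measure.hausdorffMeasure (1 : ℝ)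
      (frontier (region (S : Set (Tile F3)))) := by
    rcases max_choice (bd (posn S) (zv 1 0)) (bd (posn S) (zv 0 1)) with h2 | h2
    · rw [hB, h2]
      exact bd_ek_le S hA 0
    · rw [hB, h2]
      exact bd_ek_le S hA 1
  calc ENNReal.ofReal |(N : ℝ) - δ * (S.card : ENNReal).toReal| ≤ ENNReal.ofReal (c * B) := by
        apply ENNReal.ofReal_le_ofReal
        rw [ENNReal.toReal_natCast]
        exact h1
    _ = ENNReal.ofReal c * (B : ENNReal) := by
        rw [ENNReal.ofReal_mul hc, ENNReal.ofReal_natCast]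
    _ ≤ _ := by gcongr

variable {W : Type} (b : Blk W)

namespace Blk

variable {H V : W → W → Prop}

lemma R_pos : 0 < b.R.card := by
  rw [Finset.card_pos]
  exact ⟨(0, 0), (b.mem_R _).mpr ⟨⟨le_rfl, b.K_pos⟩, ⟨le_rfl, b.K_pos⟩⟩⟩

/-- the densities -/
noncomputable def dens (t : Fin 3) : ℝ := if t = 0 then 1 - 2 / b.R.card else 1 / b.R.card

lemma type_bound (P : Finset (Tile DR.F3)) (hp : Packing (P : Set (Tile DR.F3)))
    (hc : b.Chart H V (P : Set (Tile DR.F3))) (B : ℕ)
    (h0 : bd (posn P) (zv 1 0) ≤ B) (h1 : bd (posn P) (zv 0 1) ≤ B) (t : Fin 3) :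
    |((XX P t).card : ℝ) - b.dens t * P.card| ≤ 3 * b.cK * B := by
  have g1 := b.count1a P hc B h0 h1
  have g2 := b.count1b P hc B h0 h1
  have g3 := b.count2a P hc B h0 h1
  have g4 := b.count2b P hc B h0 h1
  have g5 := card_posn P hp
  have g6 := card_posn_eq P hp
  have hR : (1 : ℝ) ≤ b.R.card := by exact_mod_cast b.R_pos
  rw [g6] at g1 g2 g5
  have g1' : (P.card : ℝ) ≤ b.R.card * (XX P 1).card + b.cK * B := by exact_mod_cast g1
  have g2' : (b.R.card : ℝ) * (XX P 1).card ≤ P.card + b.cK * B := by exact_mod_cast g2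
  have g3' : ((XX P 1).card : ℝ) ≤ (XX P 2).card + b.cK * B := by exact_mod_cast g3
  have g4' : ((XX P 2).card : ℝ) ≤ (XX P 1).card + b.cK * B := by exact_mod_cast g4
  have g5' : (P.card : ℝ) = (XX P 0).card + (XX P 1).card + (XX P 2).card := by exact_mod_cast g5
  set n : ℝ := (P.card : ℝ)
  set R : ℝ := (b.R.card : ℝ)
  set x0 : ℝ := ((XX P 0).card : ℝ)
  set x1 : ℝ := ((XX P 1).card : ℝ)
  set x2 : ℝ := ((XX P 2).card : ℝ)
  have hcB : (0 : ℝ) ≤ b.cK * B := by positivity
  set e : ℝ := b.cK * B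
  have hR0 : 0 < R := by linarith
  have k1 : n / R - e ≤ x1 ∧ x1 ≤ n / R + e := by
    constructor
    · have : n / R ≤ x1 + e := by
        rw [div_le_iff₀ hR0]
        nlinarith
      linarith
    · have : x1 - e ≤ n / R := by
        rw [le_div_iff₀ hR0]
        nlinarith
      linarith
  have e3 : 3 * (b.cK : ℝ) * B = 3 * e := by ring
  rw [e3]
  rcases fin3 t with rfl | rfl | rfl
  · have : b.dens 0 = 1 - 2 / R := by simp [dens, R]
    rw [this, abs_le]
    have e4 : (1 - 2 / R) * n = n - 2 * (n / R) := by ring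
    rw [e4]
    change -(3 * e) ≤ x0 - _ ∧ x0 - _ ≤ _
    constructor <;> linarith [k1.1, k1.2]
  · have : b.dens 1 = 1 / R := by simp [dens, R]
    rw [this, abs_le]
    have e4 : (1 / R) * n = n / R := by ring
    rw [e4]
    change -(3 * e) ≤ x1 - _ ∧ x1 - _ ≤ _
    constructor <;> linarith [k1.1, k1.2]
  · have : b.dens 2 = 1 / R := by simp [dens, R]
    rw [this, abs_le]
    have e4 : (1 / R) * n = n / R := by ring
    rw [e4]
    change -(3 * e) ≤ x2 - _ ∧ x2 - _ ≤ _
    constructor <;> linarith [k1.1, k1.2]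

end Blk

end Pool.Agent.H564R3.DR
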