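import Pool.Agent.H564R3.DR.Pat

set_option autoImplicit false

open MeasureTheory Set

namespace Pool.Agent.H564R3.DR

variable {W : Type} (b : Blk W)

namespace Blk

variable {H V : W → W → Prop} {ball : E 2 → ℝ → Set (E 2)} (hball : IsBall ball)

include hball in
lemma aligned_of_legal {P S : Set (Tile DR.F3)} (hP : Legal ball (b.rule H V) P) (hS : S ⊆ P) :
    Aligned S := by
  intro T hT T' hT' hd
  have hK : (2 : ℝ) < b.K := by exact_mod_cast b.two_lt
  exact b.legal_aligned H V hball hP (hS hT) (hS hT') (by linarith)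

lemma Packing_mono {P S : Set (Tile DR.F3)} (hP : Packing P) (hS : S ⊆ P) : Packing S :=
  fun T hT T' hT' => hP T (hS hT) T' (hS hT')

include hball in
lemma types_bound (P : Set (Tile DR.F3)) (hp : Packing P) (hP : Legal ball (b.rule H V) P)
    (S : Set (Tile DR.F3)) (hS : S ⊆ P) (hf : S.Finite) (t : DR.F3.ι) :
    Bound (countType P t (region S)) (b.dens t) (3 * b.cK) (region S) := by
  obtain ⟨s, rfl⟩ := hf.exists_finset_coe
  have hps := Packing_mono hp hS
  apply bound_of s hps (b.aligned_of_legal hball hP hS)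
  · positivity
  · intro B h0 h1
    rw [countType_eq hp s hS t]
    exact b.type_bound s hps (Chart.mono b H V (b.legal_chart H V hball hP) hS) B h0 h1 t

include hball in
theorem types : ∃ δ c : DR.F3.ι → ℝ, CondA ball (b.rule H V) δ c ∧ CondB ball (b.rule H V) δ c := by
  refine ⟨b.dens, fun _ => 3 * b.cK, ?_, ?_⟩
  · intro P hT hL S hS hf t
    exact b.types_bound hball P hT.1 hL S hS hf t
  · intro P hT hL S hS t
    exact b.types_bound hball P hT.2 hL S hS (hT.1.subset hS) t

lemma bound_zero (N : ℕ) (hN : N = 0) (R : Set (E 2)) : Bound N 0 0 R := by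
  subst hN
  unfold Bound
  simp

include hball in
theorem patterns (ρ : ℝ) (hρ : ρ < b.s) (Q : Set (Tile DR.F3)) (hQ : IsPatch Q) (hne : Q.Nonempty)
    (hdist : ∀ T ∈ Q, ∀ T' ∈ Q, dist T.2 T'.2 ≤ ρ) :
    ∃ δ c : ℝ, CondPattern ball (b.rule H V) Q δ c := by
  classical
  obtain ⟨q, rfl⟩ := hQ.1.exists_finset_coe
  have hsK : b.s < b.K ∧ 0 < b.s := by
    have h1 := b.s_lt
    have h2 := b.s_pos
    constructor <;> omega
  have hsK' : (b.s : ℝ) < b.K := by exact_mod_cast hsK.1
  have hs0 : (0 : ℝ) < b.s := by exact_mod_cast hsK.2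
  have hpack : ∀ P : Set (Tile DR.F3), IsTiling P ∨ IsPatch P → Packing P := by
    rintro P (h | h)
    exacts [h.1, h.2]
  -- non integral differences
  by_cases hint : ∀ T ∈ q, ∀ T' ∈ q, ∃ a c : ℤ, T'.2 = T.2 + zv a c
  swap
  · push Not at hint
    obtain ⟨T, hT, T', hT', hno⟩ := hint
    refine ⟨0, 0, ?_⟩
    intro P hP hL S hS hf
    apply bound_zero
    unfold countPattern
    have : {u : E 2 | ∀ T ∈ shift u (q : Set (Tile DR.F3)), T ∈ P ∧ carrier T ⊆ region S} = ∅ := by
      rw [Set.eq_empty_iff_forall_notMem]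
      intro u hu
      have h1 := (hu (T.1, u + T.2) ⟨T, hT, rfl⟩).1
      have h2 := (hu (T'.1, u + T'.2) ⟨T', hT', rfl⟩).1
      have h3 := hdist T (by exact_mod_cast hT) T' (by exact_mod_cast hT')
      obtain ⟨a, c, h4⟩ := b.legal_aligned H V hball hL h1 h2 (by
        show dist (u + T.2) (u + T'.2) < _
        rw [dist_add_left]
        linarith)
      apply hno a c
      have h5 : u + T'.2 = u + T.2 + zv a c := h4
      rw [add_assoc] at h5
      exact add_left_cancel h5
    rw [this, Set.ncard_empty]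
  have hsm' : ∀ T ∈ q, ∀ T' ∈ q, ∀ a c : ℤ, T'.2 = T.2 + zv a c → |a| < b.s ∧ |c| < b.s := by
    intro T hT T' hT' a c he
    have h1 := hdist T' (by exact_mod_cast hT') T (by exact_mod_cast hT)
    have h2 := coord_le_dist T'.2 T.2 0
    have h3 := coord_le_dist T'.2 T.2 1
    rw [he] at h2 h3
    have e0 : (T.2 + zv a c) 0 - T.2 0 = (a : ℝ) := by
      have : (T.2 + zv a c) 0 = T.2 0 + (zv a c) 0 := rfl
      rw [this, zv_zero]; ring
    have e1 : (T.2 + zv a c) 1 - T.2 1 = (c : ℝ) := by
      have : (T.2 + zv a c) 1 = T.2 1 + (zv a c) 1 := rfl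
      rw [this, zv_one]; ring
    rw [e0, ← he] at h2
    rw [e1, ← he] at h3
    constructor
    · have : (|a| : ℝ) < b.s := by linarith
      exact_mod_cast this
    · have : (|c| : ℝ) < b.s := by linarith
      exact_mod_cast this
  -- choose an anchor
  have main : ∀ T0 ∈ q, ∃ off : Tile DR.F3 → ℤ × ℤ,
      (∀ T ∈ q, T.2 = T0.2 + zv (off T).1 (off T).2) ∧
      (∀ T ∈ q, ∀ T' ∈ q, |(off T').1 - (off T).1| < b.s ∧ |(off T').2 - (off T).2| < b.s) := by
    intro T0 hT0
    have h1 : ∀ T : Tile DR.F3, ∃ p : ℤ × ℤ, T ∈ q → T.2 = T0.2 + zv p.1 p.2 := by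
      intro T
      by_cases hT : T ∈ q
      · obtain ⟨a, c, h⟩ := hint T0 hT0 T hT
        exact ⟨(a, c), fun _ => h⟩
      · exact ⟨(0, 0), fun h => absurd h hT⟩
    choose off hoff using h1
    refine ⟨off, hoff, ?_⟩
    intro T hT T' hT'
    apply hsm' T hT T' hT'
    rw [hoff T hT, hoff T' hT', add_assoc, zv_add]
    congr 2 <;> ring
  by_cases hex : ∃ T0 ∈ q, lab T0 ≠ 0
  · obtain ⟨T0, hT0, hsp⟩ := hex
    obtain ⟨off, hoff, hsm⟩ := main T0 hT0
    by_cases hex2 : ∀ T ∈ q, T ≠ T0 → lab T = 0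
    · -- exactly one special tile
      set cQ : ℕ := ∑ T ∈ q, ((off T).1.natAbs + (off T).2.natAbs) with hcQ
      refine ⟨b.dens (lab T0), 3 * b.cK + cQ, ?_⟩
      intro P hP hL S hS hf
      obtain ⟨s, rfl⟩ := hf.exists_finset_coe
      have hp := hpack P hP
      have hps := Packing_mono hp hS
      have hch := Chart.mono b H V (b.legal_chart H V hball hL) hS
      apply bound_of s hps (b.aligned_of_legal hball hL hS) _ _ _ (by positivity)
      intro B h0 h1
      obtain ⟨N, hN1, hN2, hN3⟩ := b.pat_one s q hch hQ.2 T0 hT0 off hoff hsm hsp hex2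
      rw [countPattern_eq hp s q hS T0 hT0 off hoff N hN1]
      have h2 := b.type_bound s hps hch B h0 h1 (lab T0)
      have h3 : ∑ T ∈ q, bd (posn s) (zv (off T).1 (off T).2) ≤ cQ * B := by
        rw [hcQ, Finset.sum_mul]
        exact Finset.sum_le_sum fun T _ => bd_zv _ B h0 h1 _ _
      have h4 : ((N.card : ℕ) : ℝ) ≤ (XX s (lab T0)).card := by exact_mod_cast hN2
      have h5 : ((XX s (lab T0)).card : ℝ) ≤ N.card + cQ * B := by
        have : (XX s (lab T0)).card ≤ N.card + cQ * B := by omega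
        exact_mod_cast this
      rw [abs_le] at h2 ⊢
      have h6 : (3 * (b.cK : ℝ) + cQ) * B = 3 * b.cK * B + cQ * B := by ring
      rw [h6]
      have h7 : (0 : ℝ) ≤ cQ * B := by positivity
      constructor <;> linarith [h2.1, h2.2]
    · -- two special tiles
      push Not at hex2
      obtain ⟨T1, hT1, hne1, hsp1⟩ := hex2
      refine ⟨0, 0, ?_⟩
      intro P hP hL S hS hf
      apply bound_zero
      unfold countPattern
      have hch := b.legal_chart H V hball hL
      have : {u : E 2 | ∀ T ∈ shift u (q : Set (Tile DR.F3)), T ∈ P ∧ carrier T ⊆ region S} = ∅ := by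
        rw [Set.eq_empty_iff_forall_notMem]
        intro u hu
        have h1 := (hu (T0.1, u + T0.2) ⟨T0, hT0, rfl⟩).1
        have h2 := (hu (T1.1, u + T1.2) ⟨T1, hT1, rfl⟩).1
        obtain ⟨a, c, h4⟩ := hint T0 hT0 T1 hT1
        rw [h4, ← add_assoc] at h2
        obtain ⟨h5, h6⟩ := hsm' T0 hT0 T1 hT1 a c h4
        obtain ⟨h7, h8⟩ := b.F1 hch (l := lab T0) (l' := lab T1) h1 h2 hsp hsp1 h5 h6
        apply hne1
        apply hQ.2.pos_inj (by exact_mod_cast hT1) (by exact_mod_cast hT0)
        rw [h4, h7, h8, zv_00, add_zero]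
      rw [this, Set.ncard_empty]
  · push Not at hex
    obtain ⟨T0, hT0⟩ := hne
    have hT0' : T0 ∈ q := by exact_mod_cast hT0
    obtain ⟨off, hoff, hsm⟩ := main T0 hT0'
    set cQ : ℕ := ∑ T ∈ q, ((off T).1.natAbs + (off T).2.natAbs) with hcQ
    refine ⟨1 - q.card * (b.dens 1 + b.dens 2), cQ + q.card * (6 * b.cK), ?_⟩
    intro P hP hL S hS hf
    obtain ⟨s, rfl⟩ := hf.exists_finset_coe
    have hp := hpack P hP
    have hps := Packing_mono hp hS
    have hch := Chart.mono b H V (b.legal_chart H V hball hL) hS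
    apply bound_of s hps (b.aligned_of_legal hball hL hS) _ _ _ (by positivity)
    intro B h0 h1
    obtain ⟨N, hN1, hN2, hN3⟩ := b.pat_blank s q hps hch hQ.2 T0 off hoff hsm hex
    have h0' := off0 q T0 hT0' off hoff
    have hN1' : ∀ v, v ∈ N ↔ ∀ T ∈ q, tl (lab T) (v + zv (off T).1 (off T).2) ∈ s := by
      intro v
      rw [hN1]
      constructor
      · exact fun h => h.2
      · intro h
        refine ⟨?_, h⟩
        rw [mem_posn]
        have := h T0 hT0'
        rw [h0'] at this
        simp only [zv_00, add_zero] at this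
        exact ⟨_, this⟩
    rw [countPattern_eq hp s q hS T0 hT0' off hoff N hN1']
    have g1 := b.type_bound s hps hch B h0 h1 1
    have g2 := b.type_bound s hps hch B h0 h1 2
    have h3 : ∑ T ∈ q, bd (posn s) (zv (off T).1 (off T).2) ≤ cQ * B := by
      rw [hcQ, Finset.sum_mul]
      exact Finset.sum_le_sum fun T _ => bd_zv _ B h0 h1 _ _
    rw [card_posn_eq s hps] at hN2 hN3
    have k2 : (s.card : ℝ) ≤ N.card + q.card * ((XX s 1).card + (XX s 2).card) + cQ * B := by
      have : s.card ≤ N.card + q.card * ((XX s 1).card + (XX s 2).card) + cQ * B := by omega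
      exact_mod_cast this
    have k3 : (N.card : ℝ) + q.card * ((XX s 1).card + (XX s 2).card) ≤ s.card + cQ * B := by
      have : N.card + q.card * ((XX s 1).card + (XX s 2).card) ≤ s.card + cQ * B := by omega
      exact_mod_cast this
    have g3 : |((XX s 1).card : ℝ) + (XX s 2).card - (b.dens 1 + b.dens 2) * s.card| ≤
        6 * b.cK * B := by
      have e : ((XX s 1).card : ℝ) + (XX s 2).card - (b.dens 1 + b.dens 2) * s.card =
        (((XX s 1).card : ℝ) - b.dens 1 * s.card) + (((XX s 2).card : ℝ) - b.dens 2 * s.card) := by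
        ring
      rw [e]
      refine (abs_add_le _ _).trans ?_
      linarith
    set x : ℝ := ((XX s 1).card : ℝ) + (XX s 2).card
    set y : ℝ := (b.dens 1 + b.dens 2) * s.card
    have g4 : |(q.card : ℝ) * (x - y)| ≤ q.card * (6 * b.cK * B) := by
      rw [abs_mul, Nat.abs_cast]
      exact mul_le_mul_of_nonneg_left g3 (Nat.cast_nonneg _)
    rw [abs_le] at g4 ⊢
    have e1 : (N.card : ℝ) - (1 - q.card * (b.dens 1 + b.dens 2)) * s.card =
        N.card - s.card + q.card * y := by
      simp only [y]; ring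
    have e2 : ((cQ : ℝ) + q.card * (6 * b.cK)) * B = cQ * B + q.card * (6 * b.cK * B) := by ring
    rw [e1, e2]
    have e3 : (q.card : ℝ) * (x - y) = q.card * x - q.card * y := by ring
    rw [e3] at g4
    constructor <;> linarith [g4.1, g4.2]

end Blk

end Pool.Agent.H564R3.DR
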