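import Pool.Agent.H564R3.DR.Rule

set_option autoImplicit false

open MeasureTheory Set

namespace Pool.Agent.H564R3.DR

lemma bd_filter_le {G κ : Type*} [AddCommGroup G] (A X : Finset G) (hX : X ⊆ A) (D : Finset κ)
    (g : κ → G) (Y : Finset G) (hY : ∀ y ∈ Y, y ∈ X ∧ ∃ i ∈ D, y + g i ∉ A) :
    Y.card ≤ ∑ i ∈ D, bd A (g i) := by
  classical
  have h1 : Y ⊆ D.biUnion (fun i => A.filter (fun a => a + g i ∉ A)) := by
    intro y hy
    obtain ⟨h2, i, hi, h3⟩ := hY y hy
    rw [Finset.mem_biUnion]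
    exact ⟨i, hi, Finset.mem_filter.mpr ⟨hX h2, h3⟩⟩
  refine (Finset.card_le_card h1).trans (Finset.card_biUnion_le.trans ?_)
  apply Finset.sum_le_sum
  intro i _
  unfold bd
  apply le_of_eq
  congr

variable {W : Type} (b : Blk W)

/-- the tile of type `l` at `v` -/
abbrev tl (l : Fin 3) (v : E 2) : Tile F3 := (l, v)

lemma mem_posn (P : Finset (Tile F3)) (v : E 2) : v ∈ posn P ↔ ∃ l : Fin 3, tl l v ∈ P := by
  classical
  unfold posn
  rw [Finset.mem_image]
  constructor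
  · rintro ⟨T, hT, rfl⟩
    exact ⟨T.1, hT⟩
  · rintro ⟨l, hl⟩
    exact ⟨_, hl, rfl⟩

open Classical in
/-- the positions of the tiles of type `l` -/
noncomputable def XX (P : Finset (Tile F3)) (l : Fin 3) : Finset (E 2) :=
  (posn P).filter (fun v => tl l v ∈ P)

lemma mem_XX (P : Finset (Tile F3)) (l : Fin 3) (v : E 2) :
    v ∈ XX P l ↔ tl l v ∈ P := by
  classical
  unfold XX
  rw [Finset.mem_filter, mem_posn]
  exact ⟨fun h => h.2, fun h => ⟨⟨l, h⟩, h⟩⟩

lemma XX_sub (P : Finset (Tile F3)) (l : Fin 3) : XX P l ⊆ posn P := by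
  classical
  exact Finset.filter_subset _ _

lemma lab_unique {P : Set (Tile F3)} (h : Packing P) {l l' : Fin 3} {v : E 2}
    (h1 : tl l v ∈ P) (h2 : tl l' v ∈ P) : l = l' :=
  congrArg Prod.fst (h.pos_inj h1 h2 rfl)

lemma fin3 (l : Fin 3) : l = 0 ∨ l = 1 ∨ l = 2 := by fin_cases l <;> simp

lemma card_posn (P : Finset (Tile F3)) (h : Packing (P : Set (Tile F3))) :
    (posn P).card = (XX P 0).card + (XX P 1).card + (XX P 2).card := by
  classical
  have hd : ∀ l l' : Fin 3, l ≠ l' → Disjoint (XX P l) (XX P l') := by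
    intro l l' hne
    rw [Finset.disjoint_left]
    intro v hv hv'
    rw [mem_XX] at hv hv'
    exact hne (lab_unique h (by exact_mod_cast hv) (by exact_mod_cast hv'))
  have hu : posn P = XX P 0 ∪ XX P 1 ∪ XX P 2 := by
    ext v
    rw [Finset.mem_union, Finset.mem_union, mem_XX, mem_XX, mem_XX, mem_posn]
    constructor
    · rintro ⟨l, hl⟩
      rcases fin3 l with rfl | rfl | rfl
      · left; left; exact hl
      · left; right; exact hl
      · right; exact hl
    · rintro ((h | h) | h)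
      exacts [⟨0, h⟩, ⟨1, h⟩, ⟨2, h⟩]
  rw [hu, Finset.card_union_of_disjoint, Finset.card_union_of_disjoint]
  · exact hd 0 1 (by decide)
  · rw [Finset.disjoint_union_left]
    exact ⟨hd 0 2 (by decide), hd 1 2 (by decide)⟩

lemma card_posn_eq (P : Finset (Tile F3)) (h : Packing (P : Set (Tile F3))) :
    (posn P).card = P.card := by
  classical
  unfold posn
  apply Finset.card_image_of_injOn
  intro T hT T' hT' he
  exact h.pos_inj hT hT' he

namespace Blk

variable {H V : W → W → Prop}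

lemma F1 {P : Set (Tile F3)} (hc : b.Chart H V P) {l l' : Fin 3} {v : E 2} {c d : ℤ}
    (h1 : tl l v ∈ P) (h2 : tl l' (v + zv c d) ∈ P) (hl : l ≠ 0)
    (hl' : l' ≠ 0) (hcs : |c| < b.s) (hds : |d| < b.s) : c = 0 ∧ d = 0 := by
  obtain ⟨σ, hσ, x, y, h⟩ := hc _ h1
  have hK := b.K_pos
  have hs : b.s < 2 * b.K := by
    have := b.code_lt (σ 0 0)
    have := b.code_nonneg (σ 0 0)
    have := b.s_pos
    omega
  have e1 := h _ h1 0 0 (by rw [abs_zero]; omega) (by rw [abs_zero]; omega) (by rw [zv_00, add_zero])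
  have e2 := h _ h2 c d (by omega) (by omega) rfl
  rw [add_zero, add_zero] at e1
  have e3 : l = b.lam σ x y := e1.2.2.2.2
  have e4 : l' = b.lam σ (x + c) (y + d) := e2.2.2.2.2
  exact b.lam_isolated σ x y c d (by rw [← e3]; exact hl) (by rw [← e4]; exact hl') hcs hds

lemma F2 {P : Set (Tile F3)} (hc : b.Chart H V P) {l : Fin 3} {v : E 2}
    (h1 : tl l v ∈ P) : ∃ c d : ℤ, 0 ≤ c ∧ c < b.K ∧ 0 ≤ d ∧ d < b.K ∧
      ∀ l', tl l' (v + zv (-c) (-d)) ∈ P → l' = 1 := by
  obtain ⟨σ, hσ, x, y, h⟩ := hc _ h1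
  have hK := b.K_pos
  refine ⟨x % b.K, y % b.K, Int.emod_nonneg _ hK.ne', Int.emod_lt_of_pos _ hK,
    Int.emod_nonneg _ hK.ne', Int.emod_lt_of_pos _ hK, fun l' hl' => ?_⟩
  have b1 := Int.emod_nonneg x hK.ne'
  have b2 := Int.emod_lt_of_pos x hK
  have b3 := Int.emod_nonneg y hK.ne'
  have b4 := Int.emod_lt_of_pos y hK
  have e2 := h _ hl' (-(x % b.K)) (-(y % b.K)) (by rw [abs_lt]; omega) (by rw [abs_lt]; omega) rfl
  have e4 : l' = b.lam σ (x + -(x % b.K)) (y + -(y % b.K)) := e2.2.2.2.2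
  rw [e4, lam_one]
  refine ⟨x / b.K, y / b.K, ?_, ?_⟩
  · have := Int.emod_add_mul_ediv x b.K
    omega
  · have := Int.emod_add_mul_ediv y b.K
    omega

lemma F5 {P : Set (Tile F3)} (hc : b.Chart H V P) {v : E 2} {c d : ℤ}
    (h1 : tl 1 v ∈ P) (h2 : tl 1 (v + zv c d) ∈ P)
    (hcs : |c| < b.K) (hds : |d| < b.K) : c = 0 ∧ d = 0 := by
  obtain ⟨σ, hσ, x, y, h⟩ := hc _ h1
  have hK := b.K_pos
  have e1 := h _ h1 0 0 (by rw [abs_zero]; omega) (by rw [abs_zero]; omega) (by rw [zv_00, add_zero])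
  have e2 := h _ h2 c d (by omega) (by omega) rfl
  rw [add_zero, add_zero] at e1
  have e3 : (1 : Fin 3) = b.lam σ x y := e1.2.2.2.2
  have e4 : (1 : Fin 3) = b.lam σ (x + c) (y + d) := e2.2.2.2.2
  obtain ⟨i, j, g1, g2⟩ := (b.lam_one σ _ _).mp e3.symm
  obtain ⟨i', j', g3, g4⟩ := (b.lam_one σ _ _).mp e4.symm
  rw [abs_lt] at hcs hds
  have f1 : b.K * (i' - i) = c := by rw [mul_sub]; omega
  have f2 : b.K * (j' - j) = d := by rw [mul_sub]; omega
  have k1 := b.mul_eq_zero_of_lt (m := i' - i) (by omega) (by omega)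
  have k2 := b.mul_eq_zero_of_lt (m := j' - j) (by omega) (by omega)
  rw [k1, mul_zero] at f1
  rw [k2, mul_zero] at f2
  exact ⟨f1.symm, f2.symm⟩

lemma F33 {P : Set (Tile F3)} (hc : b.Chart H V P) {v : E 2}
    (h1 : tl 1 v ∈ P) : ∃ w, ∀ l', tl l' (v + zv b.s (b.s + b.code w)) ∈ P →
      l' = 2 := by
  obtain ⟨σ, hσ, x, y, h⟩ := hc _ h1
  have hK := b.K_pos
  have hs := b.s_pos
  have e1 := h _ h1 0 0 (by rw [abs_zero]; omega) (by rw [abs_zero]; omega) (by rw [zv_00, add_zero])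
  rw [add_zero, add_zero] at e1
  have e3 : (1 : Fin 3) = b.lam σ x y := e1.2.2.2.2
  obtain ⟨i, j, g1, g2⟩ := (b.lam_one σ _ _).mp e3.symm
  refine ⟨σ i j, fun l' hl' => ?_⟩
  have b1 := b.code_lt (σ i j)
  have b2 := b.code_nonneg (σ i j)
  have e2 := h _ hl' b.s (b.s + b.code (σ i j)) (by rw [abs_lt]; omega) (by rw [abs_lt]; omega) rfl
  have e4 : l' = b.lam σ (x + b.s) (y + (b.s + b.code (σ i j))) := e2.2.2.2.2
  rw [e4, lam_two]
  exact ⟨i, j, by omega, by omega⟩

lemma F3u {P : Set (Tile DR.F3)} (hc : b.Chart H V P) {v : E 2} {w w' : W}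
    (h1 : tl 1 v ∈ P)
    (h2 : tl 2 (v + zv b.s (b.s + b.code w)) ∈ P)
    (h3 : tl 2 (v + zv b.s (b.s + b.code w')) ∈ P) : w = w' := by
  obtain ⟨σ, hσ, x, y, h⟩ := hc _ h1
  have hK := b.K_pos
  have hs := b.s_pos
  have e1 := h _ h1 0 0 (by rw [abs_zero]; omega) (by rw [abs_zero]; omega) (by rw [zv_00, add_zero])
  rw [add_zero, add_zero] at e1
  have e3 : (1 : Fin 3) = b.lam σ x y := e1.2.2.2.2
  obtain ⟨i, j, g1, g2⟩ := (b.lam_one σ _ _).mp e3.symm
  have key : ∀ w, tl 2 (v + zv b.s (b.s + b.code w)) ∈ P → b.code w = b.code (σ i j) := by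
    intro w hw
    have b1 := b.code_lt w
    have b2 := b.code_nonneg w
    have e2 := h _ hw b.s (b.s + b.code w) (by rw [abs_lt]; omega) (by rw [abs_lt]; omega) rfl
    have e4 : (2 : Fin 3) = b.lam σ (x + b.s) (y + (b.s + b.code w)) := e2.2.2.2.2
    obtain ⟨i', j', g3, g4⟩ := (b.lam_two σ _ _).mp e4.symm
    have f1 : b.K * (i' - i) = 0 := by rw [mul_sub]; omega
    have k1 := b.mul_eq_zero_of_lt (m := i' - i) (by omega) (by omega)
    have k1' : i' = i := by omega
    subst k1'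
    have b3 := b.code_lt (σ i' j')
    have b4 := b.code_nonneg (σ i' j')
    have f2 : b.K * (j' - j) = b.code w - b.code (σ i' j') := by rw [mul_sub]; omega
    have k2 := b.mul_eq_zero_of_lt (m := j' - j) (by omega) (by omega)
    have k2' : j' = j := by omega
    subst k2'
    omega
  exact b.inj ((key w h2).trans (key w' h3).symm)

lemma F4 {P : Set (Tile DR.F3)} (hc : b.Chart H V P) {v : E 2}
    (h1 : tl 2 v ∈ P) :
    ∃ w, ∀ l', tl l' (v + zv (-b.s) (-(b.s + b.code w))) ∈ P → l' = 1 := by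
  obtain ⟨σ, hσ, x, y, h⟩ := hc _ h1
  have hK := b.K_pos
  have hs := b.s_pos
  have e1 := h _ h1 0 0 (by rw [abs_zero]; omega) (by rw [abs_zero]; omega) (by rw [zv_00, add_zero])
  rw [add_zero, add_zero] at e1
  have e3 : (2 : Fin 3) = b.lam σ x y := e1.2.2.2.2
  obtain ⟨i, j, g1, g2⟩ := (b.lam_two σ _ _).mp e3.symm
  refine ⟨σ i j, fun l' hl' => ?_⟩
  have b1 := b.code_lt (σ i j)
  have b2 := b.code_nonneg (σ i j)
  have e2 := h _ hl' (-b.s) (-(b.s + b.code (σ i j))) (by rw [abs_lt]; omega)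
    (by rw [abs_lt]; omega) rfl
  have e4 : l' = b.lam σ (x + -b.s) (y + -(b.s + b.code (σ i j))) := e2.2.2.2.2
  rw [e4, lam_one]
  exact ⟨i, j, by omega, by omega⟩

/-- the cells of a block -/
noncomputable def R : Finset (ℤ × ℤ) := Finset.Ico 0 b.K ×ˢ Finset.Ico 0 b.K

lemma mem_R (p : ℤ × ℤ) : p ∈ b.R ↔ (0 ≤ p.1 ∧ p.1 < b.K) ∧ (0 ≤ p.2 ∧ p.2 < b.K) := by
  unfold R
  rw [Finset.mem_product, Finset.mem_Ico, Finset.mem_Ico]

/-- the constant of the counting estimates -/
noncomputable def cK : ℕ := ∑ p ∈ b.R, (p.1.natAbs + p.2.natAbs)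

lemma sum_bd_le (A : Finset (E 2)) (B : ℕ) (h0 : bd A (zv 1 0) ≤ B) (h1 : bd A (zv 0 1) ≤ B) :
    ∑ p ∈ b.R, bd A (zv p.1 p.2) ≤ b.cK * B := by
  unfold cK
  rw [Finset.sum_mul]
  exact Finset.sum_le_sum fun p _ => bd_zv A B h0 h1 p.1 p.2

variable (P : Finset (Tile DR.F3)) (hp : Packing (P : Set (Tile DR.F3)))
  (hc : b.Chart H V (P : Set (Tile DR.F3))) (B : ℕ)
  (h0 : bd (posn P) (zv 1 0) ≤ B) (h1 : bd (posn P) (zv 0 1) ≤ B)

include hc h0 h1 in
lemma count1a : (posn P).card ≤ b.R.card * (XX P 1).card + b.cK * B := by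
  classical
  set A := posn P with hA
  have hcov : A ⊆ (A.filter (fun v => ∃ p ∈ b.R, v + zv (-p.1) (-p.2) ∉ A)) ∪
      b.R.biUnion (fun p => (XX P 1).image (fun v => v + zv p.1 p.2)) := by
    intro v hv
    rw [Finset.mem_union, Finset.mem_filter]
    by_cases h : ∃ p ∈ b.R, v + zv (-p.1) (-p.2) ∉ A
    · left; exact ⟨hv, h⟩
    · right
      push Not at h
      rw [hA, mem_posn] at hv
      obtain ⟨l, hl⟩ := hv
      obtain ⟨c, d, g1, g2, g3, g4, g5⟩ := b.F2 hc (l := l) (v := v) (by exact_mod_cast hl)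
      have hcd : (c, d) ∈ b.R := (b.mem_R _).mpr ⟨⟨g1, g2⟩, ⟨g3, g4⟩⟩
      have h2 := h (c, d) hcd
      rw [hA, mem_posn] at h2
      obtain ⟨l', hl'⟩ := h2
      have h3 := g5 l' (by exact_mod_cast hl')
      rw [Finset.mem_biUnion]
      refine ⟨(c, d), hcd, ?_⟩
      rw [Finset.mem_image]
      refine ⟨v + zv (-c) (-d), ?_, ?_⟩
      · rw [mem_XX, ← h3]; exact hl'
      · rw [add_assoc, zv_add]
        simp [zv_00]
  refine (Finset.card_le_card hcov).trans ((Finset.card_union_le _ _).trans ?_)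
  rw [add_comm]
  apply Nat.add_le_add
  · refine Finset.card_biUnion_le.trans ?_
    rw [← smul_eq_mul, ← Finset.sum_const]
    exact Finset.sum_le_sum fun p _ => Finset.card_image_le
  · refine (bd_filter_le A A (Finset.Subset.refl _) b.R (fun p => zv (-p.1) (-p.2)) _ ?_).trans ?_
    · intro y hy
      rw [Finset.mem_filter] at hy
      exact hy
    · refine le_trans (le_of_eq ?_) (b.sum_bd_le A B h0 h1)
      apply Finset.sum_congr rfl
      intro p _
      rw [← zv_neg, bd_neg]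

include hc h0 h1 in
lemma count1b : b.R.card * (XX P 1).card ≤ (posn P).card + b.cK * B := by
  classical
  set A := posn P with hA
  have h2 := Finset.card_filter_add_card_filter_not (s := XX P 1 ×ˢ b.R)
    (fun q => q.1 + zv q.2.1 q.2.2 ∈ A)
  rw [Finset.card_product] at h2
  have h3 : ((XX P 1 ×ˢ b.R).filter (fun q => q.1 + zv q.2.1 q.2.2 ∈ A)).card ≤ A.card := by
    apply Finset.card_le_card_of_injOn (fun q => q.1 + zv q.2.1 q.2.2)
    · intro q hq
      rw [Finset.mem_coe, Finset.mem_filter] at hq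
      exact hq.2
    · rintro ⟨v, p⟩ hq ⟨v', p'⟩ hq' he
      rw [Finset.mem_coe, Finset.mem_filter, Finset.mem_product, mem_R, mem_XX] at hq hq'
      simp only at hq hq' he
      have e1 : v' = v + zv (p.1 - p'.1) (p.2 - p'.2) := by
        rw [← zv_sub, add_sub, he]; abel
      have e2 := hq'.1.1
      rw [e1] at e2
      obtain ⟨e3, e4⟩ := b.F5 hc (v := v) (c := p.1 - p'.1) (d := p.2 - p'.2)
        (by exact_mod_cast hq.1.1) (by exact_mod_cast e2)
        (by rw [abs_lt]; omega) (by rw [abs_lt]; omega)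
      have e5 : p = p' := by
        ext <;> omega
      subst e5
      have e6 : v = v' := add_right_cancel he
      rw [e6]
  have h4 : ((XX P 1 ×ˢ b.R).filter (fun q => ¬ (q.1 + zv q.2.1 q.2.2 ∈ A))).card ≤ b.cK * B := by
    have h5 : (XX P 1 ×ˢ b.R).filter (fun q => ¬ (q.1 + zv q.2.1 q.2.2 ∈ A)) ⊆
        b.R.biUnion (fun p => (A.filter (fun a => a + zv p.1 p.2 ∉ A)).image (fun a => (a, p))) := by
      rintro ⟨v, p⟩ hq
      rw [Finset.mem_filter, Finset.mem_product] at hq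
      rw [Finset.mem_biUnion]
      refine ⟨p, hq.1.2, ?_⟩
      rw [Finset.mem_image]
      exact ⟨v, Finset.mem_filter.mpr ⟨XX_sub P 1 hq.1.1, hq.2⟩, rfl⟩
    refine (Finset.card_le_card h5).trans (Finset.card_biUnion_le.trans ?_)
    refine le_trans (Finset.sum_le_sum fun p _ => Finset.card_image_le) ?_
    refine le_trans (le_of_eq ?_) (b.sum_bd_le A B h0 h1)
    apply Finset.sum_congr rfl
    intro p _
    unfold bd
    congr
  nlinarith

include hc h0 h1 in
lemma count2a : (XX P 1).card ≤ (XX P 2).card + b.cK * B := by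
  classical
  set A := posn P with hA
  have h2 := Finset.card_filter_add_card_filter_not (s := XX P 1)
    (fun v => ∀ p ∈ b.R, v + zv p.1 p.2 ∈ A)
  have h3 : ((XX P 1).filter (fun v => ∀ p ∈ b.R, v + zv p.1 p.2 ∈ A)).card ≤ (XX P 2).card := by
    apply Finset.card_le_card_of_forall_subsingleton
      (fun v m => ∃ w, m = v + zv b.s (b.s + b.code w))
    · intro v hv
      rw [Finset.mem_filter, mem_XX] at hv
      obtain ⟨w, hw⟩ := b.F33 hc (v := v) (by exact_mod_cast hv.1)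
      have b1 := b.code_lt w
      have b2 := b.code_nonneg w
      have b3 := b.s_pos
      have h4 := hv.2 (b.s, b.s + b.code w) ((b.mem_R _).mpr (by simp only; omega))
      rw [hA, mem_posn] at h4
      obtain ⟨l', hl'⟩ := h4
      have h5 := hw l' (by exact_mod_cast hl')
      refine ⟨v + zv b.s (b.s + b.code w), ?_, w, rfl⟩
      rw [mem_XX, ← h5]
      exact hl'
    · rintro m hm v ⟨hv, w, hw⟩ v' ⟨hv', w', hw'⟩
      rw [Finset.mem_filter, mem_XX] at hv hv'
      have e1 : v' = v + zv 0 (b.code w - b.code w') := by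
        have : v' = m - zv b.s (b.s + b.code w') := by rw [hw']; abel
        rw [this, hw, add_sub_assoc, zv_sub]
        congr 2 <;> ring
      have b1 := b.code_lt w
      have b2 := b.code_nonneg w
      have b3 := b.s_pos
      have b4 := b.code_lt w'
      have b5 := b.code_nonneg w'
      have e2 := hv'.1
      rw [e1] at e2
      obtain ⟨e3, e4⟩ := b.F5 hc (v := v) (c := 0) (d := b.code w - b.code w')
        (by exact_mod_cast hv.1) (by exact_mod_cast e2)
        (by rw [abs_zero]; omega) (by rw [abs_lt]; omega)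
      rw [e1, e4, zv_00, add_zero]
  have h4 : ((XX P 1).filter (fun v => ¬ ∀ p ∈ b.R, v + zv p.1 p.2 ∈ A)).card ≤ b.cK * B := by
    refine (bd_filter_le A (XX P 1) (XX_sub P 1) b.R (fun p => zv p.1 p.2) _ ?_).trans
      (b.sum_bd_le A B h0 h1)
    intro y hy
    rw [Finset.mem_filter] at hy
    push Not at hy
    exact hy
  omega

include hc h0 h1 in
lemma count2b : (XX P 2).card ≤ (XX P 1).card + b.cK * B := by
  classical
  set A := posn P with hA
  have h2 := Finset.card_filter_add_card_filter_not (s := XX P 2)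
    (fun v => ∀ p ∈ b.R, v + zv (-p.1) (-p.2) ∈ A)
  have h3 : ((XX P 2).filter (fun v => ∀ p ∈ b.R, v + zv (-p.1) (-p.2) ∈ A)).card ≤
      (XX P 1).card := by
    apply Finset.card_le_card_of_forall_subsingleton
      (fun m v => ∃ w, m = v + zv b.s (b.s + b.code w))
    · intro m hm
      rw [Finset.mem_filter, mem_XX] at hm
      obtain ⟨w, hw⟩ := b.F4 hc (v := m) (by exact_mod_cast hm.1)
      have b1 := b.code_lt w
      have b2 := b.code_nonneg w
      have b3 := b.s_pos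
      have h4 := hm.2 (b.s, b.s + b.code w) ((b.mem_R _).mpr (by simp only; omega))
      rw [hA, mem_posn] at h4
      obtain ⟨l', hl'⟩ := h4
      have h5 := hw l' (by exact_mod_cast hl')
      refine ⟨m + zv (-b.s) (-(b.s + b.code w)), ?_, w, ?_⟩
      · rw [mem_XX, ← h5]
        exact hl'
      · rw [add_assoc, zv_add]
        simp [zv_00]
    · rintro v hv m ⟨hm, w, hw⟩ m' ⟨hm', w', hw'⟩
      rw [Finset.mem_filter, mem_XX] at hm hm'
      rw [mem_XX] at hv
      have := b.F3u hc (v := v) (w := w) (w' := w') (by exact_mod_cast hv)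
        (by rw [← hw]; exact_mod_cast hm.1) (by rw [← hw']; exact_mod_cast hm'.1)
      rw [hw, hw', this]
  have h4 : ((XX P 2).filter (fun v => ¬ ∀ p ∈ b.R, v + zv (-p.1) (-p.2) ∈ A)).card ≤
      b.cK * B := by
    refine (bd_filter_le A (XX P 2) (XX_sub P 2) b.R (fun p => zv (-p.1) (-p.2)) _ ?_).trans ?_
    · intro y hy
      rw [Finset.mem_filter] at hy
      push Not at hy
      exact hy
    · refine le_trans (le_of_eq ?_) (b.sum_bd_le A B h0 h1)
      apply Finset.sum_congr rfl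
      intro p _
      rw [← zv_neg, bd_neg]
  omega

end Blk

end Pool.Agent.H564R3.DR
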