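import Mathlib

set_option autoImplicit false

open MeasureTheory Set

/-! # Prototiles, matching rules and discrepancy: definitions -/

namespace Pool.Agent.H564R3.DR

/-- Euclidean `d`-space. -/
abbrev E (d : ℕ) := EuclideanSpace ℝ (Fin d)

/-- A prototile set in `ℝ^d`: a finite set `ι` of tile types, each of which is a nonempty compact
set (`shape`) that equals the closure of its interior and whose boundary has finite
`(d-1)`-dimensional Hausdorff measure.  Different types may have the same shape (labels). -/
structure Prototiles (d : ℕ) where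
  /-- the set of types -/
  ι : Type
  finite : Finite ι
  /-- the compact set of a type -/
  shape : ι → Set (E d)
  nonempty : ∀ t, (shape t).Nonempty
  compact : ∀ t, IsCompact (shape t)
  regular : ∀ t, closure (interior (shape t)) = shape t
  boundary : ∀ t, Measure.hausdorffMeasure ((d : ℝ) - 1) (frontier (shape t)) < ⊤

variable {d : ℕ} {F : Prototiles d}

/-- A tile: a type together with a translation vector. -/
abbrev Tile (F : Prototiles d) : Type := F.ι × E d

/-- The set occupied by a tile: the translate of the prototile. -/
def carrier (T : Tile F) : Set (E d) := {x | x - T.2 ∈ F.shape T.1}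

/-- The tiles have pairwise disjoint interiors. -/
def Packing (P : Set (Tile F)) : Prop :=
  ∀ T ∈ P, ∀ T' ∈ P, T ≠ T' → Disjoint (interior (carrier T)) (interior (carrier T'))

/-- A patch: a finite set of tiles with pairwise disjoint interiors. -/
def IsPatch (P : Set (Tile F)) : Prop := P.Finite ∧ Packing P

/-- A tiling: tiles with pairwise disjoint interiors covering `ℝ^d`. -/
def IsTiling (P : Set (Tile F)) : Prop := Packing P ∧ (⋃ T ∈ P, carrier T) = univ

/-- The translate of a set of tiles. -/
def shift (u : E d) (P : Set (Tile F)) : Set (Tile F) := (fun T => (T.1, u + T.2)) '' P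

/-- A (local) matching rule `(r, 𝒜)`. -/
structure MatchingRule (F : Prototiles d) where
  /-- the radius -/
  r : ℝ
  r_pos : 0 < r
  /-- the allowed configurations -/
  allowed : Set (Set (Tile F))
  finite : allowed.Finite
  patch : ∀ A ∈ allowed, IsPatch A

/-- `ball` is the open ball `x, r ↦ B(x,r)` or the closed one. -/
def IsBall (ball : E d → ℝ → Set (E d)) : Prop := ball = Metric.ball ∨ ball = Metric.closedBall

/-- `P` is legal: for every `x`, the tiles of `P` meeting the ball `B(x,r)` form a translate of a
sub-patch of some allowed configuration. -/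
def Legal (ball : E d → ℝ → Set (E d)) (M : MatchingRule F) (P : Set (Tile F)) : Prop :=
  ∀ x : E d, ∃ A ∈ M.allowed, ∃ B ⊆ A, ∃ u : E d,
    {T ∈ P | (carrier T ∩ ball x M.r).Nonempty} = shift u B

/-- The region covered by a set of tiles. -/
def region (S : Set (Tile F)) : Set (E d) := ⋃ T ∈ S, carrier T

/-- The number of tiles of type `t` of `P` in the region `R`. -/
noncomputable def countType (P : Set (Tile F)) (t : F.ι) (R : Set (E d)) : ℕ :=
  {T ∈ P | T.1 = t ∧ carrier T ⊆ R}.ncard

/-- The number of translates of the pattern `Q` that occur in `P` inside the region `R`. -/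
noncomputable def countPattern (P Q : Set (Tile F)) (R : Set (E d)) : ℕ :=
  {u : E d | ∀ T ∈ shift u Q, T ∈ P ∧ carrier T ⊆ R}.ncard

/-- The discrepancy bound `|N - δ vol R| ≤ c |∂R|`, `|∂R|` being the `(d-1)`-dimensional Hausdorff
measure of the boundary. -/
def Bound (N : ℕ) (δ c : ℝ) (R : Set (E d)) : Prop :=
  ENNReal.ofReal |(N : ℝ) - δ * (volume R).toReal| ≤
    ENNReal.ofReal c * Measure.hausdorffMeasure ((d : ℝ) - 1) (frontier R)

/-- Condition (A): the bound holds for the number of tiles of each type, for every legal tiling and
every region that is a finite union of its tiles. -/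
def CondA (ball : E d → ℝ → Set (E d)) (M : MatchingRule F) (δ c : F.ι → ℝ) : Prop :=
  ∀ P : Set (Tile F), IsTiling P → Legal ball M P → ∀ S ⊆ P, S.Finite → ∀ t : F.ι,
    Bound (countType P t (region S)) (δ t) (c t) (region S)

/-- Condition (B): the same bound for every legal finite patch and every region that is a finite
union of its tiles. -/
def CondB (ball : E d → ℝ → Set (E d)) (M : MatchingRule F) (δ c : F.ι → ℝ) : Prop :=
  ∀ P : Set (Tile F), IsPatch P → Legal ball M P → ∀ S ⊆ P, ∀ t : F.ι,
    Bound (countType P t (region S)) (δ t) (c t) (region S)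

/-- The same bound for the number of occurrences of the pattern `Q`, for legal tilings and for
legal finite patches. -/
def CondPattern (ball : E d → ℝ → Set (E d)) (M : MatchingRule F) (Q : Set (Tile F))
    (δ c : ℝ) : Prop :=
  ∀ P : Set (Tile F), IsTiling P ∨ IsPatch P → Legal ball M P → ∀ S ⊆ P, S.Finite →
    Bound (countPattern P Q (region S)) δ c (region S)

/-- The full statement: for every `ρ` there is a matching rule in the plane whose legal tilings
exist, none of them having a nonzero period, with (A) and (B), and with the same bound for all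
patterns of diameter at most `ρ`. -/
def Goal : Prop := ∀ (ρ : ℝ) (ball : E 2 → ℝ → Set (E 2)), IsBall ball →
  ∃ (F : Prototiles 2) (M : MatchingRule F),
  (∃ P : Set (Tile F), IsTiling P ∧ Legal ball M P) ∧
  (∀ P : Set (Tile F), IsTiling P → Legal ball M P → ∀ p : E 2, p ≠ 0 → shift p P ≠ P) ∧
  (∃ δ c : F.ι → ℝ, CondA ball M δ c ∧ CondB ball M δ c) ∧
  ∀ Q : Set (Tile F), IsPatch Q → Q.Nonempty → (∀ T ∈ Q, ∀ T' ∈ Q, dist T.2 T'.2 ≤ ρ) →
    ∃ δ c : ℝ, CondPattern ball M Q δ c

/-! ### The unit squares -/

/-- The closed unit square with lower left corner `v`. -/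
def sq (v : E 2) : Set (E 2) := {x | ∀ i, v i ≤ x i ∧ x i ≤ v i + 1}

/-- The open unit square with lower left corner `v`. -/
def osq (v : E 2) : Set (E 2) := {x | ∀ i, v i < x i ∧ x i < v i + 1}

/-- The integer vector `(a, b)`. -/
noncomputable def zv (a b : ℤ) : E 2 := !₂[(a : ℝ), (b : ℝ)]

end Pool.Agent.H564R3.DR
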