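import Pool.Agent.H564R3.DR.Sq

set_option autoImplicit false

open MeasureTheory Set

namespace Pool.Agent.H564R3.DR

open Classical in
/-- number of elements of `A` whose translate by `g` is not in `A` -/
noncomputable def bd {G : Type*} [AddCommGroup G] (A : Finset G) (g : G) : ℕ :=
  (A.filter (fun a => a + g ∉ A)).card

section bd
variable {G : Type*} [AddCommGroup G] (A : Finset G)

lemma bd_add (g h : G) : bd A (g + h) ≤ bd A g + bd A h := by
  classical
  unfold bd
  have h1 : A.filter (fun a => a + (g + h) ∉ A) ⊆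
      A.filter (fun a => a + g ∉ A) ∪
        (A.filter (fun a => a + h ∉ A)).image (fun a => a - g) := by
    intro a ha
    rw [Finset.mem_filter] at ha
    rw [Finset.mem_union, Finset.mem_filter, Finset.mem_image]
    by_cases hg : a + g ∈ A
    · right
      refine ⟨a + g, ?_, by abel⟩
      rw [Finset.mem_filter]
      refine ⟨hg, ?_⟩
      rw [add_assoc]
      exact ha.2
    · left
      exact ⟨ha.1, hg⟩
  calc _ ≤ _ := Finset.card_le_card h1
    _ ≤ _ := Finset.card_union_le _ _
    _ ≤ _ := Nat.add_le_add_left Finset.card_image_le _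

lemma bd_neg (g : G) : bd A (-g) = bd A g := by
  classical
  unfold bd
  have h1 := Finset.card_filter_add_card_filter_not (s := A) (fun a => a + g ∈ A)
  have h2 := Finset.card_filter_add_card_filter_not (s := A) (fun a => a + -g ∈ A)
  have h3 : (A.filter (fun a => a + g ∈ A)).card = (A.filter (fun a => a + -g ∈ A)).card := by
    apply Finset.card_bij (fun a _ => a + g)
    · intro a ha
      rw [Finset.mem_filter] at ha ⊢
      refine ⟨ha.2, ?_⟩
      rw [add_neg_cancel_right]
      exact ha.1
    · intro a _ b _ hab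
      exact add_right_cancel hab
    · intro b hb
      rw [Finset.mem_filter] at hb
      refine ⟨b + -g, ?_, by abel⟩
      rw [Finset.mem_filter]
      refine ⟨hb.2, ?_⟩
      rw [neg_add_cancel_right]
      exact hb.1
  omega

lemma bd_zero : bd A 0 = 0 := by
  classical
  unfold bd
  rw [Finset.card_eq_zero, Finset.filter_eq_empty_iff]
  intro a ha
  rw [add_zero]
  exact not_not.mpr ha

lemma bd_nsmul (g : G) (n : ℕ) : bd A (n • g) ≤ n * bd A g := by
  induction n with
  | zero => simp [bd_zero]
  | succ n ih =>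
    rw [succ_nsmul]
    have := bd_add A (n • g) g
    nlinarith

lemma bd_zsmul (g : G) (n : ℤ) : bd A (n • g) ≤ n.natAbs * bd A g := by
  rcases Int.natAbs_eq n with h | h
  · conv_lhs => rw [h]
    rw [natCast_zsmul]
    exact bd_nsmul A g _
  · conv_lhs => rw [h]
    rw [neg_smul, natCast_zsmul, bd_neg]
    exact bd_nsmul A g _

end bd

lemma zv_zero (a b : ℤ) : (zv a b) 0 = (a : ℝ) := by simp [zv]
lemma zv_one (a b : ℤ) : (zv a b) 1 = (b : ℝ) := by simp [zv]

lemma zv_add (a b c d : ℤ) : zv a b + zv c d = zv (a + c) (b + d) := by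
  ext i; fin_cases i <;> simp [zv]

lemma zv_neg (a b : ℤ) : -zv a b = zv (-a) (-b) := by
  ext i; fin_cases i <;> simp [zv]

lemma zv_sub (a b c d : ℤ) : zv a b - zv c d = zv (a - c) (b - d) := by
  ext i; fin_cases i <;> simp [zv]

lemma zv_00 : zv 0 0 = 0 := by
  ext i; fin_cases i <;> simp [zv]

lemma zv_smul (a b : ℤ) : zv a b = a • zv 1 0 + b • zv 0 1 := by
  ext i; fin_cases i <;> simp [zv]

lemma zv_inj {a b c d : ℤ} (h : zv a b = zv c d) : a = c ∧ b = d := by
  have h0 := congrArg (fun x : E 2 => x 0) h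
  have h1 := congrArg (fun x : E 2 => x 1) h
  simp only [zv_zero, zv_one] at h0 h1
  exact ⟨by exact_mod_cast h0, by exact_mod_cast h1⟩

lemma bd_zv (A : Finset (E 2)) (B : ℕ) (h0 : bd A (zv 1 0) ≤ B) (h1 : bd A (zv 0 1) ≤ B) (a b : ℤ) :
    bd A (zv a b) ≤ (a.natAbs + b.natAbs) * B := by
  rw [zv_smul]
  refine (bd_add _ _ _).trans ?_
  rw [add_mul]
  exact Nat.add_le_add ((bd_zsmul A _ a).trans (Nat.mul_le_mul_left _ h0))
    ((bd_zsmul A _ b).trans (Nat.mul_le_mul_left _ h1))

/-- the open right (`k = 0`) or top (`k = 1`) edge -/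
def edge (k : Fin 2) (v : E 2) : Set (E 2) :=
  {x | x k = v k + 1 ∧ v (k + 1) < x (k + 1) ∧ x (k + 1) < v (k + 1) + 1}

lemma measurable_edge (k : Fin 2) (v : E 2) : MeasurableSet (edge k v) := by
  have hc : ∀ i : Fin 2, Continuous (fun x : E 2 => x i) := fun i => by fun_prop
  have h1 : MeasurableSet {x : E 2 | x k = v k + 1} :=
    (isClosed_eq (hc k) continuous_const).measurableSet
  have h2 : MeasurableSet {x : E 2 | v (k + 1) < x (k + 1)} :=
    (isOpen_lt continuous_const (hc _)).measurableSet
  have h3 : MeasurableSet {x : E 2 | x (k + 1) < v (k + 1) + 1} :=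
    (isOpen_lt (hc _) continuous_const).measurableSet
  exact h1.inter (h2.inter h3)

lemma fin2_ne (k : Fin 2) : k + 1 ≠ k := by fin_cases k <;> decide

lemma fin2_cases (k i : Fin 2) : i = k ∨ i = k + 1 := by
  fin_cases k <;> fin_cases i <;> decide

lemma one_le_edge (k : Fin 2) (v : E 2) : 1 ≤ Measure.hausdorffMeasure (1 : ℝ) (edge k v) := by
  have hL : LipschitzWith 1 (fun x : E 2 => x (k + 1)) := by
    apply LipschitzWith.of_dist_le_mul
    intro x y
    rw [NNReal.coe_one, one_mul, dist_eq_norm, dist_eq_norm]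
    exact PiLp.norm_apply_le (x - y) (k + 1)
  have h1 := hL.hausdorffMeasure_image_le (d := 1) zero_le_one (edge k v)
  rw [ENNReal.coe_one, ENNReal.one_rpow, one_mul, hausdorffMeasure_real] at h1
  refine le_trans ?_ h1
  have h2 : Set.Ioo (v (k + 1)) (v (k + 1) + 1) ⊆ (fun x : E 2 => x (k + 1)) '' edge k v := by
    intro t ht
    refine ⟨WithLp.toLp 2 (fun i => if i = k then v k + 1 else t), ⟨?_, ?_, ?_⟩, ?_⟩
    · simp
    · simpa [fin2_ne] using ht.1
    · simpa [fin2_ne] using ht.2
    · simp [fin2_ne]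
  refine le_trans ?_ (measure_mono h2)
  rw [Real.volume_Ioo]
  simp

/-- tiles closer than `4` are aligned with each other -/
def Aligned (P : Set (Tile F3)) : Prop :=
  ∀ T ∈ P, ∀ T' ∈ P, dist T.2 T'.2 < 4 → ∃ a b : ℤ, T'.2 = T.2 + zv a b

lemma dist_le_of_coord (x y : E 2) (c : ℝ) (h : ∀ i, |x i - y i| ≤ c) : dist x y ≤ 2 * c := by
  have hc : 0 ≤ c := le_trans (abs_nonneg _) (h 0)
  rw [EuclideanSpace.dist_eq, Fin.sum_univ_two, Real.dist_eq, Real.dist_eq, sq_abs, sq_abs]
  have h0 := abs_le.mp (h 0)
  have h1 := abs_le.mp (h 1)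
  apply Real.sqrt_le_iff.mpr
  refine ⟨by linarith, ?_⟩
  nlinarith [sq_nonneg (x 0 - y 0), sq_nonneg (x 1 - y 1)]

lemma coord_le_dist (x y : E 2) (i : Fin 2) : |x i - y i| ≤ dist x y := by
  rw [dist_eq_norm]
  exact PiLp.norm_apply_le (x - y) i

open Classical in
/-- the positions of the tiles -/
noncomputable def posn (P : Finset (Tile F3)) : Finset (E 2) := P.image (fun T => T.2)

/-- the unit vector -/
noncomputable def ek (k : Fin 2) : E 2 := if k = 0 then zv 1 0 else zv 0 1

lemma ek_self (k : Fin 2) : (ek k) k = 1 := by fin_cases k <;> simp [ek, zv]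
lemma ek_other (k : Fin 2) : (ek k) (k + 1) = 0 := by fin_cases k <;> simp [ek, zv]

lemma bd_ek_le (P : Finset (Tile F3)) (hA : Aligned (P : Set (Tile F3))) (k : Fin 2) :
    (bd (posn P) (ek k) : ENNReal) ≤
      Measure.hausdorffMeasure (1 : ℝ) (frontier (region (P : Set (Tile F3)))) := by
  classical
  set S := (posn P).filter (fun a => a + ek k ∉ posn P) with hS
  have hSmem : ∀ v ∈ S, (∃ T ∈ P, T.2 = v) ∧ ∀ T ∈ P, T.2 ≠ v + ek k := by
    intro v hv
    rw [hS, Finset.mem_filter] at hv
    refine ⟨by simpa [posn] using hv.1, ?_⟩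
    intro T hT he
    exact hv.2 (Finset.mem_image.mpr ⟨T, hT, he⟩)
  have hint : ∀ T ∈ P, ∀ T' ∈ P, (∀ i, |T.2 i - T'.2 i| < 2) → ∃ a : Fin 2 → ℤ,
      ∀ i, T'.2 i = T.2 i + a i := by
    intro T hT T' hT' h
    have hd : dist T.2 T'.2 < 4 := by
      have h0 := h 0
      have h1 := h 1
      have := dist_le_of_coord T.2 T'.2 (max |T.2 0 - T'.2 0| |T.2 1 - T'.2 1|) (by
        intro i
        fin_cases i
        · exact le_max_left _ _
        · exact le_max_right _ _)
      have h2 := max_lt h0 h1
      linarith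
    obtain ⟨a, b, hab⟩ := hA T (by exact_mod_cast hT) T' (by exact_mod_cast hT') hd
    refine ⟨![a, b], fun i => ?_⟩
    rw [hab]
    fin_cases i
    · simp [zv]
    · simp [zv]
  have hdis : Set.PairwiseDisjoint (S : Set (E 2)) (edge k) := by
    intro v hv v' hv' hne
    show Disjoint (edge k v) (edge k v')
    rw [Set.disjoint_left]
    rintro x ⟨h1, h2, h3⟩ ⟨h1', h2', h3'⟩
    apply hne
    obtain ⟨⟨T, hT, rfl⟩, _⟩ := hSmem v (by exact_mod_cast hv)
    obtain ⟨⟨T', hT', rfl⟩, _⟩ := hSmem v' (by exact_mod_cast hv')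
    have e1 : T.2 k = T'.2 k := by linarith
    obtain ⟨a, ha⟩ := hint T hT T' hT' (by
      intro i
      rcases fin2_cases k i with rfl | rfl
      · rw [e1, sub_self, abs_zero]; norm_num
      · rw [abs_lt]; constructor <;> linarith)
    have h5 := ha (k + 1)
    have h6 : a (k + 1) = 0 := by
      have h7 : (a (k + 1) : ℝ) < 1 := by linarith
      have h8 : (-1 : ℝ) < (a (k + 1) : ℝ) := by linarith
      have h7' : a (k + 1) < 1 := by exact_mod_cast h7
      have h8' : -1 < a (k + 1) := by exact_mod_cast h8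
      omega
    rw [h6, Int.cast_zero, add_zero] at h5
    ext i
    rcases fin2_cases k i with rfl | rfl
    · exact e1
    · exact h5.symm
  have hsub : (⋃ v ∈ S, edge k v) ⊆ frontier (region (P : Set (Tile F3))) := by
    intro x hx
    simp only [Set.mem_iUnion] at hx
    obtain ⟨v, hv, hx1, hx2, hx3⟩ := hx
    obtain ⟨⟨T, hT, rfl⟩, hno⟩ := hSmem v hv
    rw [frontier_eq_closure_inter_closure]
    constructor
    · apply subset_closure
      rw [region_F3]
      simp only [Set.mem_iUnion]
      refine ⟨T, by exact_mod_cast hT, ?_⟩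
      intro i
      rcases fin2_cases k i with rfl | rfl
      · rw [hx1]; constructor <;> linarith
      · exact ⟨hx2.le, hx3.le⟩
    · rw [Metric.mem_closure_iff]
      intro ε hε
      set η : ℝ := min (ε / 4) (1 / 2) with hη
      have hη0 : 0 < η := lt_min (by linarith) (by norm_num)
      have hη1 : η ≤ 1 / 2 := min_le_right _ _
      have hη2 : η ≤ ε / 4 := min_le_left _ _
      let y : E 2 := WithLp.toLp 2 (fun i => if i = k then x k + η else x i)
      have hyk : y k = x k + η := by simp [y]
      have hyo : y (k + 1) = x (k + 1) := by simp [y, fin2_ne]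
      refine ⟨y, ?_, ?_⟩
      · intro hy
        rw [region_F3] at hy
        simp only [Set.mem_iUnion] at hy
        obtain ⟨T', hT', hy⟩ := hy
        have hT'' : T' ∈ P := by exact_mod_cast hT'
        have hyk' := hy k
        have hyo' := hy (k + 1)
        rw [hyk, hx1] at hyk'
        rw [hyo] at hyo'
        obtain ⟨a, ha⟩ := hint T hT T' hT'' (by
          intro i
          rcases fin2_cases k i with rfl | rfl
          · rw [abs_lt]; constructor <;> linarith [hyk'.1, hyk'.2]
          · rw [abs_lt]; constructor <;> linarith [hyo'.1, hyo'.2])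
        have h5 := ha k
        have h6 := ha (k + 1)
        have h7 : a k = 1 := by
          have g1 : (a k : ℝ) < 2 := by linarith [hyk'.1]
          have g2 : (0 : ℝ) < (a k : ℝ) := by linarith [hyk'.2]
          have g1' : a k < 2 := by exact_mod_cast g1
          have g2' : 0 < a k := by exact_mod_cast g2
          omega
        have h8 : a (k + 1) = 0 := by
          have g1 : (a (k + 1) : ℝ) < 1 := by linarith [hyo'.1]
          have g2 : (-1 : ℝ) < (a (k + 1) : ℝ) := by linarith [hyo'.2]
          have g1' : a (k + 1) < 1 := by exact_mod_cast g1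
          have g2' : -1 < a (k + 1) := by exact_mod_cast g2
          omega
        apply hno T' hT''
        ext i
        rcases fin2_cases k i with rfl | rfl
        · have : (T.2 + ek i) i = T.2 i + (ek i) i := rfl
          rw [h5, h7, this, ek_self, Int.cast_one]
        · have : (T.2 + ek k) (k + 1) = T.2 (k + 1) + (ek k) (k + 1) := rfl
          rw [h6, h8, this, ek_other, Int.cast_zero]
      · have : dist x y ≤ 2 * η := by
          apply dist_le_of_coord
          intro i
          rcases fin2_cases k i with rfl | rfl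
          · rw [hyk]
            rw [show x i - (x i + η) = -η by ring, abs_neg, abs_of_pos hη0]
          · rw [hyo, sub_self, abs_zero]
            exact hη0.le
        linarith
  have hcard : bd (posn P) (ek k) = S.card := by
    rw [hS]
    unfold bd
    congr
  calc (bd (posn P) (ek k) : ENNReal) = ∑ v ∈ S, 1 := by rw [hcard]; simp
    _ ≤ ∑ v ∈ S, Measure.hausdorffMeasure (1 : ℝ) (edge k v) :=
        Finset.sum_le_sum fun v _ => one_le_edge k v
    _ = Measure.hausdorffMeasure (1 : ℝ) (⋃ v ∈ S, edge k v) :=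
        (measure_biUnion_finset hdis fun v _ => measurable_edge k v).symm
    _ ≤ _ := measure_mono hsub

end Pool.Agent.H564R3.DR
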