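import Pool.Agent.H564R3.DR.Til

set_option autoImplicit false

open MeasureTheory Set

namespace Pool.Agent.H564R3.DR

variable {W : Type} (b : Blk W)

namespace Blk

variable {H V : W → W → Prop} {ball : E 2 → ℝ → Set (E 2)} (hball : IsBall ball)

/-- the chart property for a labelling of the integer grid -/
def LChart (H V : W → W → Prop) (L : ℤ → ℤ → Fin 3) : Prop := ∀ x y : ℤ, ∃ σ, Valid H V σ ∧
  ∃ a c : ℤ, ∀ m n : ℤ, |m| < 2 * b.K → |n| < 2 * b.K →
    0 ≤ a + m ∧ a + m < 10 * b.K ∧ 0 ≤ c + n ∧ c + n < 10 * b.K ∧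
      L (x + m) (y + n) = b.lam σ (a + m) (c + n)

include hball in
lemma lchart_of {P : Set (Tile F3)} (hL : Legal ball (b.rule H V) P) (v0 : E 2) (L : ℤ → ℤ → Fin 3)
    (h : ∀ x y, tl (L x y) (v0 + zv x y) ∈ P) : b.LChart H V L := by
  intro x y
  obtain ⟨σ, hσ, a, c, h1⟩ := b.legal_chart H V hball hL _ (h x y)
  refine ⟨σ, hσ, a, c, ?_⟩
  intro m n hm hn
  have h2 := h1 _ (h (x + m) (y + n)) m n hm hn (by
    show v0 + zv (x + m) (y + n) = v0 + zv x y + zv m n
    rw [add_assoc, zv_add])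
  exact h2

section L
variable {L : ℤ → ℤ → Fin 3} (hL : b.LChart H V L)

include hL in
lemma exists_corner : ∃ x y, L x y = 1 := by
  obtain ⟨σ, hσ, a, c, h⟩ := hL 0 0
  have hK := b.K_pos
  have b1 := Int.emod_nonneg a hK.ne'
  have b2 := Int.emod_lt_of_pos a hK
  have b3 := Int.emod_nonneg c hK.ne'
  have b4 := Int.emod_lt_of_pos c hK
  obtain ⟨-, -, -, -, h1⟩ := h (-(a % b.K)) (-(c % b.K)) (by rw [abs_lt]; omega)
    (by rw [abs_lt]; omega)
  refine ⟨0 + -(a % b.K), 0 + -(c % b.K), ?_⟩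
  rw [h1, lam_one]
  refine ⟨a / b.K, c / b.K, ?_, ?_⟩
  · have := Int.emod_add_mul_ediv a b.K
    omega
  · have := Int.emod_add_mul_ediv c b.K
    omega

/-- the Wang tile at the corner `(x, y)` -/
def IsW (L : ℤ → ℤ → Fin 3) (x y : ℤ) (w : W) : Prop := L (x + b.s) (y + (b.s + b.code w)) = 2

include hL in
/-- at a corner: description of the neighbourhood -/
lemma corner_loc (x y : ℤ) (hxy : L x y = 1) : ∃ σ, Valid H V σ ∧ ∃ i j : ℤ,
    ∀ m n : ℤ, |m| < 2 * b.K → |n| < 2 * b.K →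
      0 ≤ b.K * i + m ∧ b.K * i + m < 10 * b.K ∧ 0 ≤ b.K * j + n ∧ b.K * j + n < 10 * b.K ∧
      L (x + m) (y + n) = b.lam σ (b.K * i + m) (b.K * j + n) := by
  obtain ⟨σ, hσ, a, c, h⟩ := hL x y
  have hK := b.K_pos
  obtain ⟨-, -, -, -, h1⟩ := h 0 0 (by rw [abs_zero]; omega) (by rw [abs_zero]; omega)
  rw [add_zero, add_zero, add_zero, add_zero, hxy] at h1
  obtain ⟨i, j, rfl, rfl⟩ := (b.lam_one σ _ _).mp h1.symm
  exact ⟨σ, hσ, i, j, h⟩

include hL in
lemma isW_unique (x y : ℤ) (hxy : L x y = 1) (w w' : W) (h : b.IsW L x y w)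
    (h' : b.IsW L x y w') : w = w' := by
  obtain ⟨σ, hσ, i, j, hl⟩ := b.corner_loc hL x y hxy
  have hK := b.K_pos
  have hs := b.s_pos
  have key : ∀ w, b.IsW L x y w → b.code w = b.code (σ i j) := by
    intro w hw
    have b1 := b.code_lt w
    have b2 := b.code_nonneg w
    obtain ⟨-, -, -, -, e2⟩ := hl b.s (b.s + b.code w) (by rw [abs_lt]; omega)
      (by rw [abs_lt]; omega)
    unfold IsW at hw
    rw [hw] at e2
    obtain ⟨i', j', g3, g4⟩ := (b.lam_two σ _ _).mp e2.symm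
    have f1 : b.K * (i' - i) = 0 := by rw [mul_sub]; omega
    have k1 := b.mul_eq_zero_of_lt (m := i' - i) (by omega) (by omega)
    have k1' : i' = i := by omega
    subst k1'
    have b3 := b.code_lt (σ i' j')
    have b4 := b.code_nonneg (σ i' j')
    have f2 : b.K * (j' - j) = b.code w - b.code (σ i' j') := by rw [mul_sub]; omega
    have k2 := b.mul_eq_zero_of_lt (m := j' - j) (by omega) (by omega)
    have k2' : j' = j := by omega
    subst k2'
    omega
  exact b.inj ((key w h).trans (key w' h').symm)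

include hL in
lemma corner_step (x y : ℤ) (hxy : L x y = 1) : L (x + b.K) y = 1 ∧ L (x - b.K) y = 1 ∧
    L x (y + b.K) = 1 ∧ L x (y - b.K) = 1 ∧ (∃ w, b.IsW L x y w) ∧
    (∀ w w', b.IsW L x y w → b.IsW L (x + b.K) y w' → H w w') ∧
    (∀ w w', b.IsW L x y w → b.IsW L x (y + b.K) w' → V w w') := by
  obtain ⟨σ, hσ, i, j, hl⟩ := b.corner_loc hL x y hxy
  have hK := b.K_pos
  have hs := b.s_pos
  have hs2 := b.s_lt
  have c1 : L (x + b.K) y = 1 := by
    obtain ⟨-, -, -, -, h1⟩ := hl b.K 0 (by rw [abs_lt]; omega) (by rw [abs_zero]; omega)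
    rw [add_zero, add_zero] at h1
    rw [h1, lam_one]
    exact ⟨i + 1, j, by ring, by ring⟩
  have c2 : L (x - b.K) y = 1 := by
    obtain ⟨-, -, -, -, h1⟩ := hl (-b.K) 0 (by rw [abs_lt]; omega) (by rw [abs_zero]; omega)
    rw [add_zero, add_zero] at h1
    rw [sub_eq_add_neg, h1, lam_one]
    exact ⟨i - 1, j, by ring, by ring⟩
  have c3 : L x (y + b.K) = 1 := by
    obtain ⟨-, -, -, -, h1⟩ := hl 0 b.K (by rw [abs_zero]; omega) (by rw [abs_lt]; omega)
    rw [add_zero, add_zero] at h1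
    rw [h1, lam_one]
    exact ⟨i, j + 1, by ring, by ring⟩
  have c4 : L x (y - b.K) = 1 := by
    obtain ⟨-, -, -, -, h1⟩ := hl 0 (-b.K) (by rw [abs_zero]; omega) (by rw [abs_lt]; omega)
    rw [add_zero, add_zero] at h1
    rw [sub_eq_add_neg, h1, lam_one]
    exact ⟨i, j - 1, by ring, by ring⟩
  have w0 : b.IsW L x y (σ i j) := by
    have b1 := b.code_lt (σ i j)
    have b2 := b.code_nonneg (σ i j)
    obtain ⟨-, -, -, -, h1⟩ := hl b.s (b.s + b.code (σ i j)) (by rw [abs_lt]; omega)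
      (by rw [abs_lt]; omega)
    unfold IsW
    rw [h1, lam_two]
    exact ⟨i, j, by ring, by ring⟩
  have w1 : b.IsW L (x + b.K) y (σ (i + 1) j) := by
    have b1 := b.code_lt (σ (i + 1) j)
    have b2 := b.code_nonneg (σ (i + 1) j)
    obtain ⟨-, -, -, -, h1⟩ := hl (b.K + b.s) (b.s + b.code (σ (i + 1) j)) (by rw [abs_lt]; omega)
      (by rw [abs_lt]; omega)
    unfold IsW
    rw [add_assoc, h1, lam_two]
    exact ⟨i + 1, j, by ring, by ring⟩
  have w2 : b.IsW L x (y + b.K) (σ i (j + 1)) := by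
    have b1 := b.code_lt (σ i (j + 1))
    have b2 := b.code_nonneg (σ i (j + 1))
    obtain ⟨-, -, -, -, h1⟩ := hl b.s (b.K + (b.s + b.code (σ i (j + 1)))) (by rw [abs_lt]; omega)
      (by rw [abs_lt]; omega)
    unfold IsW
    rw [add_assoc y, h1, lam_two]
    exact ⟨i, j + 1, by ring, by ring⟩
  -- ranges
  obtain ⟨r1, -, r3, -, -⟩ := hl 0 0 (by rw [abs_zero]; omega) (by rw [abs_zero]; omega)
  obtain ⟨-, r2, -, r4, -⟩ := hl b.K b.K (by rw [abs_lt]; omega) (by rw [abs_lt]; omega)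
  have i0 : 0 ≤ i := by
    by_contra hc
    have : i ≤ -1 := by omega
    nlinarith
  have j0 : 0 ≤ j := by
    by_contra hc
    have : j ≤ -1 := by omega
    nlinarith
  have i1 : i + 1 < 10 := by
    by_contra hc
    have : 9 ≤ i := by omega
    nlinarith
  have j1 : j + 1 < 10 := by
    by_contra hc
    have : 9 ≤ j := by omega
    nlinarith
  have hv := hσ i j i0 (by omega) j0 (by omega)
  refine ⟨c1, c2, c3, c4, ⟨_, w0⟩, ?_, ?_⟩
  · intro w w' h h'
    rw [b.isW_unique hL x y hxy w _ h w0, b.isW_unique hL _ y c1 w' _ h' w1]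
    exact hv.1 i1
  · intro w w' h h'
    rw [b.isW_unique hL x y hxy w _ h w0, b.isW_unique hL x _ c3 w' _ h' w2]
    exact hv.2 j1

include hL in
lemma corner_all (x y : ℤ) (hxy : L x y = 1) (i j : ℤ) : L (x + b.K * i) (y + b.K * j) = 1 := by
  have hrow : ∀ i : ℤ, L (x + b.K * i) y = 1 := by
    intro i
    induction i using Int.induction_on with
    | zero => simpa using hxy
    | succ i ih =>
      have := (b.corner_step hL _ y ih).1
      rw [add_assoc] at this
      rw [mul_add, mul_one]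
      exact this
    | pred i ih =>
      have := (b.corner_step hL _ y ih).2.1
      rw [add_sub_assoc] at this
      rw [mul_sub, mul_one]
      exact this
  induction j using Int.induction_on with
  | zero => simpa using hrow i
  | succ j ih =>
    have := (b.corner_step hL _ _ ih).2.2.1
    rw [add_assoc y] at this
    rw [mul_add b.K (j : ℤ), mul_one]
    exact this
  | pred j ih =>
    have := (b.corner_step hL _ _ ih).2.2.2.1
    rw [add_sub_assoc y] at this
    rw [mul_sub b.K (-(j : ℤ)), mul_one]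
    exact this

include hL in
/-- decoding -/
lemma decode : ∃ (x0 y0 : ℤ) (τ : ℤ → ℤ → W), WTiling H V τ ∧
    (∀ i j, L (x0 + b.K * i) (y0 + b.K * j) = 1) ∧
    ∀ i j, b.IsW L (x0 + b.K * i) (y0 + b.K * j) (τ i j) := by
  obtain ⟨x0, y0, h0⟩ := b.exists_corner hL
  have hc := b.corner_all hL x0 y0 h0
  have hw : ∀ i j, ∃ w, b.IsW L (x0 + b.K * i) (y0 + b.K * j) w := fun i j =>
    (b.corner_step hL _ _ (hc i j)).2.2.2.2.1
  choose τ hτ using hw
  refine ⟨x0, y0, τ, ?_, hc, hτ⟩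
  intro i j
  have hst := b.corner_step hL _ _ (hc i j)
  constructor
  · apply hst.2.2.2.2.2.1 _ _ (hτ i j)
    have := hτ (i + 1) j
    rw [mul_add b.K i, mul_one, ← add_assoc] at this
    exact this
  · apply hst.2.2.2.2.2.2 _ _ (hτ i j)
    have := hτ i (j + 1)
    rw [mul_add b.K j, mul_one, ← add_assoc] at this
    exact this

include hL in
lemma period (hno : ∀ τ : ℤ → ℤ → W, WTiling H V τ → ∀ m n : ℤ,
      (∀ i j, τ (i + m) (j + n) = τ i j) → m = 0 ∧ n = 0)
    (m n : ℤ) (hper : ∀ x y, L (x + m) (y + n) = L x y) : m = 0 ∧ n = 0 := by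
  obtain ⟨x0, y0, τ, hτ, hc, hw⟩ := b.decode hL
  apply hno τ hτ m n
  have hk : ∀ (k : ℕ) (x y : ℤ), L (x + k * m) (y + k * n) = L x y := by
    intro k
    induction k with
    | zero => intro x y; simp
    | succ k ih =>
      intro x y
      have := hper (x + k * m) (y + k * n)
      rw [ih] at this
      rw [← this]
      congr 1 <;> (push_cast; ring)
  have hK : ((b.K.toNat : ℕ) : ℤ) = b.K := Int.toNat_of_nonneg b.K_pos.le
  have hkK := hk b.K.toNat
  rw [hK] at hkK
  intro i j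
  apply b.isW_unique hL _ _ (hc i j)
  · have h1 := hw (i + m) (j + n)
    unfold IsW at h1 ⊢
    rw [← hkK]
    rw [← h1]
    congr 1 <;> ring
  · exact hw i j

end L

include hball in
theorem no_period {P : Set (Tile F3)} (hP : IsTiling P) (hL : Legal ball (b.rule H V) P)
    (hno : ∀ τ : ℤ → ℤ → W, WTiling H V τ → ∀ m n : ℤ,
      (∀ i j, τ (i + m) (j + n) = τ i j) → m = 0 ∧ n = 0)
    (p : E 2) (hp : p ≠ 0) : shift p P ≠ P := by
  intro he
  obtain ⟨v0, L, hLL, hgrid⟩ := b.grid hball hP hL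
  have hch := b.lchart_of hball hL v0 L hLL
  have hsh : ∀ (l : Fin 3) (v : E 2), tl l v ∈ P → tl l (p + v) ∈ P := by
    intro l v hv
    have : tl l (p + v) ∈ shift p P := ⟨tl l v, hv, rfl⟩
    rw [he] at this
    exact this
  obtain ⟨m, n, hmn⟩ := hgrid _ (hsh _ _ (hLL 0 0))
  have hmn' : p = zv m n := by
    have h1 : p + (v0 + zv 0 0) = v0 + zv m n := hmn
    rw [zv_00, add_zero, add_comm] at h1
    exact add_left_cancel h1
  have hper : ∀ x y, L (x + m) (y + n) = L x y := by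
    intro x y
    have h1 := hsh _ _ (hLL x y)
    have h2 : p + (v0 + zv x y) = v0 + zv (x + m) (y + n) := by
      rw [hmn', ← zv_add]; abel
    rw [h2] at h1
    exact lab_unique hP.1 (hLL (x + m) (y + n)) h1
  obtain ⟨e1, e2⟩ := b.period hch hno m n hper
  apply hp
  rw [hmn', e1, e2, zv_00]

end Blk

end Pool.Agent.H564R3.DR
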