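import Pool.Agent.H564R3.DR.Cond

set_option autoImplicit false

open MeasureTheory Set

namespace Pool.Agent.H564R3.DR

variable {W : Type} (b : Blk W)

namespace Blk

variable {H V : W → W → Prop}

variable (P Q : Finset (Tile DR.F3)) (hp : Packing (P : Set (Tile DR.F3)))
  (hc : b.Chart H V (P : Set (Tile DR.F3))) (hQ : Packing (Q : Set (Tile DR.F3)))
  (T0 : Tile DR.F3) (hT0 : T0 ∈ Q) (off : Tile DR.F3 → ℤ × ℤ)
  (hoff : ∀ T ∈ Q, T.2 = T0.2 + zv (off T).1 (off T).2)
  (hsm : ∀ T ∈ Q, ∀ T' ∈ Q, |(off T').1 - (off T).1| < b.s ∧ |(off T').2 - (off T).2| < b.s)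

include hT0 hoff in
lemma off0 : off T0 = (0, 0) := by
  have h := hoff T0 hT0
  have h2 : zv (off T0).1 (off T0).2 = zv 0 0 := by
    rw [zv_00]
    exact left_eq_add.mp h
  obtain ⟨h3, h4⟩ := zv_inj h2
  ext
  · exact h3
  · exact h4

include hQ hoff in
lemma off_inj {T T' : Tile DR.F3} (hT : T ∈ Q) (hT' : T' ∈ Q) (h : off T = off T') : T = T' := by
  apply hQ.pos_inj (by exact_mod_cast hT) (by exact_mod_cast hT')
  rw [hoff T hT, hoff T' hT', h]

include hc hQ hT0 hoff hsm in
lemma pat_one (hsp : lab T0 ≠ 0) (hbl : ∀ T ∈ Q, T ≠ T0 → lab T = 0) :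
    ∃ N : Finset (E 2), (∀ v, v ∈ N ↔ ∀ T ∈ Q, tl (lab T) (v + zv (off T).1 (off T).2) ∈ P) ∧
      N.card ≤ (XX P (lab T0)).card ∧
      (XX P (lab T0)).card ≤ N.card + ∑ T ∈ Q, bd (posn P) (zv (off T).1 (off T).2) := by
  classical
  have h0 := off0 Q T0 hT0 off hoff
  refine ⟨(XX P (lab T0)).filter (fun v => ∀ T ∈ Q, v + zv (off T).1 (off T).2 ∈ posn P), ?_, ?_, ?_⟩
  · intro v
    rw [Finset.mem_filter, mem_XX]
    constructor
    · rintro ⟨h1, h2⟩ T hT
      by_cases hTT : T = T0
      · subst hTT
        rw [h0]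
        simp only [zv_00, add_zero]
        exact h1
      · rw [hbl T hT hTT]
        have h3 := h2 T hT
        rw [mem_posn] at h3
        obtain ⟨l, hl⟩ := h3
        by_cases hl0 : l = 0
        · rw [← hl0]; exact hl
        · exfalso
          have h4 := hsm T0 hT0 T hT
          rw [h0] at h4
          simp only [sub_zero] at h4
          obtain ⟨h5, h6⟩ := b.F1 hc (l := lab T0) (l' := l) (v := v) (by exact_mod_cast h1)
            (by exact_mod_cast hl) hsp hl0 h4.1 h4.2
          apply hTT
          apply off_inj Q hQ T0 off hoff hT hT0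
          rw [h0]
          ext
          · exact h5
          · exact h6
    · intro h
      constructor
      · have := h T0 hT0
        rw [h0] at this
        simp only [zv_00, add_zero] at this
        exact this
      · intro T hT
        rw [mem_posn]
        exact ⟨_, h T hT⟩
  · exact Finset.card_filter_le _ _
  · have h2 := Finset.card_filter_add_card_filter_not (s := XX P (lab T0))
      (fun v => ∀ T ∈ Q, v + zv (off T).1 (off T).2 ∈ posn P)
    have h3 := bd_filter_le (posn P) (XX P (lab T0)) (XX_sub P _) Q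
      (fun T => zv (off T).1 (off T).2)
      ((XX P (lab T0)).filter (fun v => ¬ ∀ T ∈ Q, v + zv (off T).1 (off T).2 ∈ posn P)) (by
        intro y hy
        rw [Finset.mem_filter] at hy
        push Not at hy
        exact hy)
    omega

include hp hc hQ hoff hsm in
lemma pat_blank (hbl : ∀ T ∈ Q, lab T = 0) :
    ∃ N : Finset (E 2), (∀ v, v ∈ N ↔ v ∈ posn P ∧ ∀ T ∈ Q,
        tl (lab T) (v + zv (off T).1 (off T).2) ∈ P) ∧
      (posn P).card ≤ N.card + Q.card * ((XX P 1).card + (XX P 2).card) +
        ∑ T ∈ Q, bd (posn P) (zv (off T).1 (off T).2) ∧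
      N.card + Q.card * ((XX P 1).card + (XX P 2).card) ≤ (posn P).card +
        ∑ T ∈ Q, bd (posn P) (zv (off T).1 (off T).2) := by
  classical
  set Sp := XX P 1 ∪ XX P 2 with hSp
  have hSpc : Sp.card = (XX P 1).card + (XX P 2).card := by
    rw [hSp, Finset.card_union_of_disjoint]
    rw [Finset.disjoint_left]
    intro v hv hv'
    rw [mem_XX] at hv hv'
    have := lab_unique hp (by exact_mod_cast hv) (by exact_mod_cast hv')
    exact absurd this (by decide)
  have hSpA : Sp ⊆ posn P := Finset.union_subset (XX_sub P 1) (XX_sub P 2)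
  have hSpm : ∀ v, v ∈ Sp ↔ ∃ l : Fin 3, l ≠ 0 ∧ tl l v ∈ P := by
    intro v
    rw [hSp, Finset.mem_union, mem_XX, mem_XX]
    constructor
    · rintro (h | h)
      exacts [⟨1, by decide, h⟩, ⟨2, by decide, h⟩]
    · rintro ⟨l, hl, h⟩
      rcases fin3 l with rfl | rfl | rfl
      · exact absurd rfl hl
      · left; exact h
      · right; exact h
  rw [← hSpc]
  set N := (posn P).filter (fun v => ∀ T ∈ Q, tl (lab T) (v + zv (off T).1 (off T).2) ∈ P) with hN
  refine ⟨N, fun v => by rw [hN, Finset.mem_filter], ?_, ?_⟩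
  · have hcov : posn P ⊆ (N ∪ Q.biUnion (fun T => Sp.image (fun v => v - zv (off T).1 (off T).2))) ∪
        (posn P).filter (fun v => ∃ T ∈ Q, v + zv (off T).1 (off T).2 ∉ posn P) := by
      intro v hv
      by_cases h1 : ∃ T ∈ Q, v + zv (off T).1 (off T).2 ∉ posn P
      · rw [Finset.mem_union, Finset.mem_filter]
        right; exact ⟨hv, h1⟩
      · push Not at h1
        rw [Finset.mem_union]
        left
        rw [Finset.mem_union]
        by_cases h2 : ∃ T ∈ Q, v + zv (off T).1 (off T).2 ∈ Sp
        · right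
          obtain ⟨T, hT, h3⟩ := h2
          rw [Finset.mem_biUnion]
          refine ⟨T, hT, ?_⟩
          rw [Finset.mem_image]
          exact ⟨_, h3, by abel⟩
        · left
          rw [hN, Finset.mem_filter]
          refine ⟨hv, fun T hT => ?_⟩
          have h3 := h1 T hT
          rw [mem_posn] at h3
          obtain ⟨l, hl⟩ := h3
          rw [hbl T hT]
          by_cases hl0 : l = 0
          · rw [← hl0]; exact hl
          · exact absurd ⟨T, hT, (hSpm _).mpr ⟨l, hl0, hl⟩⟩ h2
    refine (Finset.card_le_card hcov).trans ((Finset.card_union_le _ _).trans ?_)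
    apply Nat.add_le_add
    · refine (Finset.card_union_le _ _).trans (Nat.add_le_add_left ?_ _)
      refine Finset.card_biUnion_le.trans ?_
      rw [← smul_eq_mul, ← Finset.sum_const]
      exact Finset.sum_le_sum fun p _ => Finset.card_image_le
    · refine bd_filter_le (posn P) (posn P) (Finset.Subset.refl _) Q
        (fun T => zv (off T).1 (off T).2) _ ?_
      intro y hy
      rw [Finset.mem_filter] at hy
      exact hy
  · let U : Tile DR.F3 → Finset (E 2) := fun T =>
      (Sp.filter (fun v => v + -zv (off T).1 (off T).2 ∈ posn P)).image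
        (fun v => v + -zv (off T).1 (off T).2)
    have hUmem : ∀ T v, v ∈ U T ↔ v ∈ posn P ∧ v + zv (off T).1 (off T).2 ∈ Sp := by
      intro T v
      simp only [U, Finset.mem_image, Finset.mem_filter]
      constructor
      · rintro ⟨w, ⟨h1, h2⟩, rfl⟩
        refine ⟨h2, ?_⟩
        rw [neg_add_cancel_right]
        exact h1
      · rintro ⟨h1, h2⟩
        refine ⟨v + zv (off T).1 (off T).2, ⟨h2, ?_⟩, ?_⟩
        · rw [add_neg_cancel_right]; exact h1
        · rw [add_neg_cancel_right]
    have hUcard : ∀ T, Sp.card ≤ (U T).card + bd (posn P) (zv (off T).1 (off T).2) := by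
      intro T
      have h1 : (U T).card = (Sp.filter (fun v => v + -zv (off T).1 (off T).2 ∈ posn P)).card :=
        Finset.card_image_of_injective _ (fun x y h => add_right_cancel h)
      have h2 := Finset.card_filter_add_card_filter_not (s := Sp)
        (fun v => v + -zv (off T).1 (off T).2 ∈ posn P)
      have h3 := bd_filter_le (posn P) Sp hSpA {T} (fun T => -zv (off T).1 (off T).2)
        (Sp.filter (fun v => ¬ (v + -zv (off T).1 (off T).2 ∈ posn P))) (by
          intro y hy
          rw [Finset.mem_filter] at hy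
          exact ⟨hy.1, T, Finset.mem_singleton_self T, hy.2⟩)
      rw [Finset.sum_singleton, bd_neg] at h3
      omega
    have hdis : ∀ T ∈ Q, ∀ T' ∈ Q, T ≠ T' → Disjoint (U T) (U T') := by
      intro T hT T' hT' hne
      rw [Finset.disjoint_left]
      intro v hv hv'
      rw [hUmem] at hv hv'
      obtain ⟨l, hl, h1⟩ := (hSpm _).mp hv.2
      obtain ⟨l', hl', h2⟩ := (hSpm _).mp hv'.2
      have h3 : v + zv (off T').1 (off T').2 = v + zv (off T).1 (off T).2 +
          zv ((off T').1 - (off T).1) ((off T').2 - (off T).2) := by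
        rw [add_assoc, zv_add]
        congr 2 <;> ring
      rw [h3] at h2
      have h4 := hsm T hT T' hT'
      obtain ⟨h5, h6⟩ := b.F1 hc (by exact_mod_cast h1) (by exact_mod_cast h2) hl hl' h4.1 h4.2
      apply hne
      apply off_inj Q hQ T0 off hoff hT hT'
      ext <;> omega
    have hdN : Disjoint N (Q.biUnion U) := by
      rw [Finset.disjoint_left]
      intro v hv hv'
      rw [Finset.mem_biUnion] at hv'
      obtain ⟨T, hT, h1⟩ := hv'
      rw [hUmem] at h1
      rw [hN, Finset.mem_filter] at hv
      have h2 := hv.2 T hT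
      obtain ⟨l, hl, h3⟩ := (hSpm _).mp h1.2
      have h4 := lab_unique hp (l := lab T) (l' := l) (by exact_mod_cast h2) (by exact_mod_cast h3)
      rw [hbl T hT] at h4
      exact hl h4.symm
    have hsub : N ∪ Q.biUnion U ⊆ posn P := by
      intro v hv
      rw [Finset.mem_union] at hv
      rcases hv with hv | hv
      · rw [hN, Finset.mem_filter] at hv
        exact hv.1
      · rw [Finset.mem_biUnion] at hv
        obtain ⟨T, hT, h1⟩ := hv
        exact ((hUmem T v).mp h1).1
    have h5 := Finset.card_le_card hsub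
    rw [Finset.card_union_of_disjoint hdN, Finset.card_biUnion hdis] at h5
    have h6 : Q.card * Sp.card ≤ ∑ T ∈ Q, (U T).card +
        ∑ T ∈ Q, bd (posn P) (zv (off T).1 (off T).2) := by
      rw [← Finset.sum_add_distrib, ← smul_eq_mul, ← Finset.sum_const]
      exact Finset.sum_le_sum fun T _ => hUcard T
    omega

end Blk

end Pool.Agent.H564R3.DR
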