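import Pool.Agent.H564R3.DR.Geo

set_option autoImplicit false

open MeasureTheory Set

namespace Pool.Agent.H564R3.DR

/-- Data of the block code: `K` the block size, `s` the distance of the markers from the corners,
`code` the height of the marker. -/
structure Blk (W : Type) where
  code : W → ℤ
  K : ℤ
  s : ℤ
  s_pos : 0 < s
  code_nonneg : ∀ w, 0 ≤ code w
  code_lt : ∀ w, 2 * s + code w < K
  inj : Function.Injective code
  two_lt : 2 < K
  s_lt : 2 * s < K

variable {W : Type} (b : Blk W)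

namespace Blk

lemma K_pos : 0 < b.K := by have := b.two_lt; omega

/-- multiples of `K` smaller than `K` in absolute value -/
lemma mul_eq_zero_of_lt {m : ℤ} (h1 : b.K * m < b.K) (h2 : -b.K < b.K * m) : m = 0 := by
  have hK := b.K_pos
  have h3 : m < 1 := by
    by_contra hc
    have : 1 ≤ m := by omega
    nlinarith
  have h4 : -1 < m := by
    by_contra hc
    have : m ≤ -1 := by omega
    nlinarith
  omega

open Classical in
/-- the label of the cell `(x, y)` -/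
noncomputable def lam (σ : ℤ → ℤ → W) (x y : ℤ) : Fin 3 :=
  if ∃ i j : ℤ, x = b.K * i ∧ y = b.K * j then 1
  else if ∃ i j : ℤ, x = b.K * i + b.s ∧ y = b.K * j + b.s + b.code (σ i j) then 2 else 0

lemma lam_one (σ : ℤ → ℤ → W) (x y : ℤ) :
    b.lam σ x y = 1 ↔ ∃ i j : ℤ, x = b.K * i ∧ y = b.K * j := by
  unfold lam
  split_ifs with h1 h2
  · exact iff_of_true rfl h1
  · exact iff_of_false (by decide) h1
  · exact iff_of_false (by decide) h1

lemma not_both (σ : ℤ → ℤ → W) (x y : ℤ) (h1 : ∃ i j : ℤ, x = b.K * i ∧ y = b.K * j)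
    (h2 : ∃ i j : ℤ, x = b.K * i + b.s ∧ y = b.K * j + b.s + b.code (σ i j)) : False := by
  obtain ⟨i, j, h3, h4⟩ := h1
  obtain ⟨i', j', h5, h6⟩ := h2
  have hs := b.s_pos
  have hc := b.code_lt (σ i' j')
  have hc' := b.code_nonneg (σ i' j')
  have h7 : b.K * (i - i') = b.s := by rw [mul_sub]; omega
  have h8 := b.mul_eq_zero_of_lt (m := i - i') (by omega) (by omega)
  rw [h8, mul_zero] at h7
  omega

lemma lam_two (σ : ℤ → ℤ → W) (x y : ℤ) :
    b.lam σ x y = 2 ↔ ∃ i j : ℤ, x = b.K * i + b.s ∧ y = b.K * j + b.s + b.code (σ i j) := by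
  unfold lam
  split_ifs with h1 h2
  · constructor
    · intro h; exact absurd h (by decide)
    · intro h; exact (b.not_both σ x y h1 h).elim
  · exact iff_of_true rfl h2
  · exact iff_of_false (by decide) h2

/-- special cells -/
lemma lam_isolated (σ : ℤ → ℤ → W) (x y c d : ℤ) (h : b.lam σ x y ≠ 0)
    (h' : b.lam σ (x + c) (y + d) ≠ 0) (hc : |c| < b.s) (hd : |d| < b.s) : c = 0 ∧ d = 0 := by
  have hs := b.s_pos
  have hK := b.K_pos
  have key : ∀ z w : ℤ, b.lam σ z w ≠ 0 → (∃ i j : ℤ, z = b.K * i ∧ w = b.K * j) ∨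
      (∃ i j : ℤ, z = b.K * i + b.s ∧ w = b.K * j + b.s + b.code (σ i j)) := by
    intro z w hzw
    have : b.lam σ z w = 1 ∨ b.lam σ z w = 2 := by
      revert hzw
      generalize b.lam σ z w = t
      fin_cases t <;> simp
    rcases this with h | h
    · left; exact (b.lam_one σ z w).mp h
    · right; exact (b.lam_two σ z w).mp h
  rw [abs_lt] at hc hd
  have bound : ∀ i j, 0 ≤ b.code (σ i j) ∧ 2 * b.s + b.code (σ i j) < b.K := fun i j =>
    ⟨b.code_nonneg _, b.code_lt _⟩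
  rcases key x y h with ⟨i, j, h1, h2⟩ | ⟨i, j, h1, h2⟩ <;>
    rcases key _ _ h' with ⟨i', j', h3, h4⟩ | ⟨i', j', h3, h4⟩
  · have e1 : b.K * (i' - i) = c := by rw [mul_sub]; omega
    have e2 : b.K * (j' - j) = d := by rw [mul_sub]; omega
    have b1 := bound i j
    have f1 := b.mul_eq_zero_of_lt (m := i' - i) (by omega) (by omega)
    have f2 := b.mul_eq_zero_of_lt (m := j' - j) (by omega) (by omega)
    rw [f1, mul_zero] at e1
    rw [f2, mul_zero] at e2
    exact ⟨e1.symm, e2.symm⟩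
  · exfalso
    have e1 : b.K * (i' - i) = c - b.s := by rw [mul_sub]; omega
    have b1 := bound i' j'
    have f1 := b.mul_eq_zero_of_lt (m := i' - i) (by omega) (by omega)
    rw [f1, mul_zero] at e1
    omega
  · exfalso
    have e1 : b.K * (i' - i) = c + b.s := by rw [mul_sub]; omega
    have b1 := bound i j
    have f1 := b.mul_eq_zero_of_lt (m := i' - i) (by omega) (by omega)
    rw [f1, mul_zero] at e1
    omega
  · have e1 : b.K * (i' - i) = c := by rw [mul_sub]; omega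
    have b1 := bound i j
    have b2 := bound i' j'
    have f1 := b.mul_eq_zero_of_lt (m := i' - i) (by omega) (by omega)
    have f1' : i' = i := by omega
    subst f1'
    have e2 : b.K * (j' - j) = d + b.code (σ i' j) - b.code (σ i' j') := by rw [mul_sub]; omega
    have f2 := b.mul_eq_zero_of_lt (m := j' - j) (by omega) (by omega)
    have f2' : j' = j := by omega
    subst f2'
    constructor <;> omega

variable (H V : W → W → Prop)

/-- a valid `10 × 10` array -/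
def Valid (σ : ℤ → ℤ → W) : Prop := ∀ i j : ℤ, 0 ≤ i → i < 10 → 0 ≤ j → j < 10 →
  (i + 1 < 10 → H (σ i j) (σ (i + 1) j)) ∧ (j + 1 < 10 → V (σ i j) (σ i (j + 1)))

/-- the configuration of an array of blocks -/
noncomputable def cfg (σ : ℤ → ℤ → W) : Set (Tile F3) :=
  {T | ∃ x y : ℤ, 0 ≤ x ∧ x < 10 * b.K ∧ 0 ≤ y ∧ y < 10 * b.K ∧ T = (b.lam σ x y, zv x y)}

lemma cfg_sub (σ : ℤ → ℤ → W) : b.cfg σ ⊆
    (fun p : Fin 3 × (ℤ × ℤ) => ((p.1, zv p.2.1 p.2.2) : Tile F3)) ''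
      (Set.univ ×ˢ (Set.Ico 0 (10 * b.K) ×ˢ Set.Ico 0 (10 * b.K))) := by
  rintro T ⟨x, y, h1, h2, h3, h4, rfl⟩
  exact ⟨(b.lam σ x y, (x, y)), ⟨Set.mem_univ _, ⟨h1, h2⟩, ⟨h3, h4⟩⟩, rfl⟩

lemma big_finite : ((fun p : Fin 3 × (ℤ × ℤ) => ((p.1, zv p.2.1 p.2.2) : Tile F3)) ''
      (Set.univ ×ˢ (Set.Ico 0 (10 * b.K) ×ˢ Set.Ico 0 (10 * b.K)))).Finite := by
  apply Set.Finite.image
  exact Set.finite_univ.prod ((Set.finite_Ico _ _).prod (Set.finite_Ico _ _))

lemma cfg_packing (σ : ℤ → ℤ → W) : Packing (b.cfg σ) := by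
  rw [packing_F3]
  rintro T ⟨x, y, -, -, -, -, rfl⟩ T' ⟨x', y', -, -, -, -, rfl⟩ hne
  by_contra hc
  push Not at hc
  apply hne
  have h0 := hc 0
  have h1 := hc 1
  simp only [zv_zero, zv_one] at h0 h1
  have h0' : |x - x'| < 1 := by exact_mod_cast h0
  have h1' : |y - y'| < 1 := by exact_mod_cast h1
  rw [abs_lt] at h0' h1'
  have e0 : x = x' := by omega
  have e1 : y = y' := by omega
  rw [e0, e1]

/-- the matching rule -/
noncomputable def rule : MatchingRule F3 where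
  r := 4 * b.K
  r_pos := by
    have : (0 : ℝ) < b.K := by exact_mod_cast b.K_pos
    linarith
  allowed := {A | ∃ σ, Valid H V σ ∧ A = b.cfg σ}
  finite := by
    apply Set.Finite.subset b.big_finite.finite_subsets
    rintro A ⟨σ, -, rfl⟩
    exact b.cfg_sub σ
  patch := by
    rintro A ⟨σ, -, rfl⟩
    exact ⟨b.big_finite.subset (b.cfg_sub σ), b.cfg_packing σ⟩

variable {ball : E 2 → ℝ → Set (E 2)} (hball : IsBall ball)

include hball in
lemma mem_ball_of (x y : E 2) (r : ℝ) (h : dist y x < r) : y ∈ ball x r := by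
  rcases hball with rfl | rfl
  · exact h
  · exact h.le

include hball in
lemma dist_of_mem_ball (x y : E 2) (r : ℝ) (h : y ∈ ball x r) : dist y x ≤ r := by
  rcases hball with rfl | rfl
  · exact (Metric.mem_ball.mp h).le
  · exact Metric.mem_closedBall.mp h

include hball

/-- local structure of a legal set of tiles -/
lemma legal_loc {P : Set (Tile F3)} (hP : Legal ball (b.rule H V) P) (x : E 2) :
    ∃ σ, Valid H V σ ∧ ∃ u : E 2, ∀ T ∈ P, dist T.2 x < 4 * b.K → ∃ a c : ℤ, 0 ≤ a ∧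
      a < 10 * b.K ∧ 0 ≤ c ∧ c < 10 * b.K ∧ T.1 = b.lam σ a c ∧ T.2 = u + zv a c := by
  obtain ⟨A, ⟨σ, hσ, rfl⟩, B, hB, u, hu⟩ := hP x
  refine ⟨σ, hσ, u, fun T hT hd => ?_⟩
  have h1 : T ∈ {T ∈ P | (carrier T ∩ ball x (b.rule H V).r).Nonempty} := by
    refine ⟨hT, T.2, ?_, ?_⟩
    · rw [carrier_F3]
      intro i
      constructor <;> linarith
    · exact mem_ball_of hball x T.2 _ hd
  rw [hu] at h1
  obtain ⟨T', hT', he⟩ := h1
  obtain ⟨a, c, h1, h2, h3, h4, rfl⟩ := hB hT'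
  refine ⟨a, c, h1, h2, h3, h4, ?_, ?_⟩
  · rw [← he]
  · rw [← he]

/-- the chart property -/
def Chart (P : Set (Tile F3)) : Prop := ∀ T ∈ P, ∃ σ, Valid H V σ ∧ ∃ x y : ℤ,
  ∀ T' ∈ P, ∀ c d : ℤ, |c| < 2 * b.K → |d| < 2 * b.K → T'.2 = T.2 + zv c d →
    0 ≤ x + c ∧ x + c < 10 * b.K ∧ 0 ≤ y + d ∧ y + d < 10 * b.K ∧ T'.1 = b.lam σ (x + c) (y + d)

lemma legal_chart {P : Set (Tile F3)} (hP : Legal ball (b.rule H V) P) : b.Chart H V P := by
  intro T hT
  obtain ⟨σ, hσ, u, h⟩ := b.legal_loc H V hball hP T.2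
  have hK : (0 : ℝ) < b.K := by exact_mod_cast b.K_pos
  obtain ⟨x, y, h1, h2, h3, h4, h5, h6⟩ := h T hT (by rw [dist_self]; linarith)
  refine ⟨σ, hσ, x, y, ?_⟩
  intro T' hT' c d hc hd he
  have hdist : dist T'.2 T.2 < 4 * b.K := by
    have hc' : (|c| : ℤ) ≤ 2 * b.K - 1 := by omega
    have hd' : (|d| : ℤ) ≤ 2 * b.K - 1 := by omega
    have hc'' : |(c : ℝ)| ≤ 2 * b.K - 1 := by exact_mod_cast hc'
    have hd'' : |(d : ℝ)| ≤ 2 * b.K - 1 := by exact_mod_cast hd'
    have := dist_le_of_coord T'.2 T.2 (2 * b.K - 1) (by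
      intro i
      rw [he]
      have e : (T.2 + zv c d) i = T.2 i + (zv c d) i := rfl
      rw [e, add_sub_cancel_left]
      fin_cases i
      · simpa [zv] using hc''
      · simpa [zv] using hd'')
    linarith
  obtain ⟨x', y', g1, g2, g3, g4, g5, g6⟩ := h T' hT' hdist
  have e1 : zv x' y' = zv (x + c) (y + d) := by
    rw [g6, h6, add_assoc] at he
    rw [add_left_cancel he, zv_add]
  obtain ⟨e2, e3⟩ := zv_inj e1
  subst e2 e3
  exact ⟨g1, g2, g3, g4, g5⟩

omit hball in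
lemma Chart.mono {P S : Set (Tile F3)} (h : b.Chart H V P) (hS : S ⊆ P) : b.Chart H V S := by
  intro T hT
  obtain ⟨σ, hσ, x, y, h1⟩ := h T (hS hT)
  exact ⟨σ, hσ, x, y, fun T' hT' => h1 T' (hS hT')⟩

/-- tiles closer than `4K` are aligned -/
lemma legal_aligned {P : Set (Tile F3)} (hP : Legal ball (b.rule H V) P) {T T' : Tile F3}
    (hT : T ∈ P) (hT' : T' ∈ P) (hd : dist T.2 T'.2 < 4 * b.K) :
    ∃ a c : ℤ, T'.2 = T.2 + zv a c := by
  obtain ⟨σ, hσ, u, h⟩ := b.legal_loc H V hball hP T.2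
  have hK : (0 : ℝ) < b.K := by exact_mod_cast b.K_pos
  obtain ⟨x, y, -, -, -, -, -, h6⟩ := h T hT (by rw [dist_self]; linarith)
  obtain ⟨x', y', -, -, -, -, -, g6⟩ := h T' hT' (by rw [dist_comm]; exact hd)
  refine ⟨x' - x, y' - y, ?_⟩
  rw [g6, h6, add_assoc, zv_add]
  congr 2 <;> ring

end Blk

end Pool.Agent.H564R3.DR
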