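import Pool.Agent.H564R3.DR.Defs

set_option autoImplicit false

open MeasureTheory Set

namespace Pool.Agent.H564R3.DR

lemma sq_eq (v : E 2) : sq v = (EuclideanSpace.equiv (Fin 2) ℝ) ⁻¹'
    (Set.univ.pi fun i => Set.Icc (v i) (v i + 1)) := by
  ext p
  simp only [sq, Set.mem_ofPred_eq, Set.mem_preimage, Set.mem_pi, Set.mem_univ, true_imp_iff,
    Set.mem_Icc]
  rfl

lemma osq_eq (v : E 2) : osq v = (EuclideanSpace.equiv (Fin 2) ℝ) ⁻¹'
    (Set.univ.pi fun i => Set.Ioo (v i) (v i + 1)) := by
  ext p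
  simp only [osq, Set.mem_ofPred_eq, Set.mem_preimage, Set.mem_pi, Set.mem_univ, true_imp_iff,
    Set.mem_Ioo]
  rfl

lemma interior_sq (v : E 2) : interior (sq v) = osq v := by
  have h := (EuclideanSpace.equiv (Fin 2) ℝ).toHomeomorph.preimage_interior
    (Set.univ.pi fun i => Set.Icc (v i) (v i + 1))
  rw [sq_eq, osq_eq]
  refine Eq.trans ?_ (Eq.trans h.symm ?_)
  · rfl
  · rw [interior_pi_set Set.finite_univ]
    simp only [interior_Icc]
    rfl

lemma closure_osq (v : E 2) : closure (osq v) = sq v := by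
  have h := (EuclideanSpace.equiv (Fin 2) ℝ).toHomeomorph.preimage_closure
    (Set.univ.pi fun i => Set.Ioo (v i) (v i + 1))
  rw [sq_eq, osq_eq]
  refine Eq.trans ?_ (Eq.trans h.symm ?_)
  · rfl
  · rw [closure_pi_set]
    have : ∀ i, closure (Set.Ioo (v i) (v i + 1)) = Set.Icc (v i) (v i + 1) := fun i =>
      closure_Ioo (by linarith)
    simp only [this]
    rfl

lemma closed_sq (v : E 2) : IsClosed (sq v) := by
  rw [← closure_osq]
  exact isClosed_closure

lemma compact_sq (v : E 2) : IsCompact (sq v) := by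
  rw [sq_eq]
  exact (EuclideanSpace.equiv (Fin 2) ℝ).toHomeomorph.isCompact_preimage.mpr
    (isCompact_univ_pi fun i => isCompact_Icc)

lemma frontier_sq (v : E 2) : frontier (sq v) = sq v \ osq v := by
  rw [frontier, interior_sq, (closed_sq v).closure_eq]

/-- segments of the boundary have finite measure -/
lemma frontier_sq_lt (v : E 2) : Measure.hausdorffMeasure ((2 : ℕ) - 1 : ℝ) (frontier (sq v)) < ⊤ := by
  have e1 : ((2 : ℕ) - 1 : ℝ) = 1 := by norm_num
  rw [e1]
  have hsub : frontier (sq v) ⊆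
      (segment ℝ (!₂[v 0, v 1] : E 2) !₂[v 0, v 1 + 1] ∪
        segment ℝ (!₂[v 0 + 1, v 1] : E 2) !₂[v 0 + 1, v 1 + 1]) ∪
      (segment ℝ (!₂[v 0, v 1] : E 2) !₂[v 0 + 1, v 1] ∪
        segment ℝ (!₂[v 0, v 1 + 1] : E 2) !₂[v 0 + 1, v 1 + 1]) := by
    intro x hx
    rw [frontier_sq] at hx
    obtain ⟨h1, h2⟩ := hx
    have hx0 := h1 0
    have hx1 := h1 1
    have hcase : x 0 = v 0 ∨ x 0 = v 0 + 1 ∨ x 1 = v 1 ∨ x 1 = v 1 + 1 := by
      by_contra hc
      push Not at hc
      apply h2
      intro i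
      fin_cases i
      · exact ⟨lt_of_le_of_ne hx0.1 (Ne.symm hc.1), lt_of_le_of_ne hx0.2 hc.2.1⟩
      · exact ⟨lt_of_le_of_ne hx1.1 (Ne.symm hc.2.2.1), lt_of_le_of_ne hx1.2 hc.2.2.2⟩
    have key : ∀ (a b : E 2) (t : ℝ), 0 ≤ t → t ≤ 1 → x 0 = (1 - t) * a 0 + t * b 0 →
        x 1 = (1 - t) * a 1 + t * b 1 → x ∈ segment ℝ a b := by
      intro a b t ht0 ht1 h0 h1
      refine ⟨1 - t, t, by linarith, ht0, by ring, ?_⟩
      ext i
      fin_cases i
      · simpa using h0.symm
      · simpa using h1.symm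
    rcases hcase with h | h | h | h
    · left; left
      refine key _ _ (x 1 - v 1) (by linarith) (by linarith) ?_ ?_
      · simp [h]; ring
      · simp; ring
    · left; right
      refine key _ _ (x 1 - v 1) (by linarith) (by linarith) ?_ ?_
      · simp [h]; ring
      · simp; ring
    · right; left
      refine key _ _ (x 0 - v 0) (by linarith) (by linarith) ?_ ?_
      · simp; ring
      · simp [h]; ring
    · right; right
      refine key _ _ (x 0 - v 0) (by linarith) (by linarith) ?_ ?_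
      · simp; ring
      · simp [h]; ring
  have hseg : ∀ a b : E 2, Measure.hausdorffMeasure (1 : ℝ) (segment ℝ a b) < ⊤ := by
    intro a b
    rw [hausdorffMeasure_segment]
    exact edist_lt_top a b
  refine lt_of_le_of_lt (measure_mono hsub) ?_
  refine lt_of_le_of_lt (measure_union_le _ _) ?_
  refine ENNReal.add_lt_top.mpr ⟨?_, ?_⟩
  · exact lt_of_le_of_lt (measure_union_le _ _) (ENNReal.add_lt_top.mpr ⟨hseg _ _, hseg _ _⟩)
  · exact lt_of_le_of_lt (measure_union_le _ _) (ENNReal.add_lt_top.mpr ⟨hseg _ _, hseg _ _⟩)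

/-- Three labelled unit squares. -/
noncomputable def F3 : Prototiles 2 where
  ι := Fin 3
  finite := inferInstance
  shape := fun _ => sq 0
  nonempty := fun _ => ⟨0, fun i => by simp⟩
  compact := fun _ => compact_sq 0
  regular := fun _ => by rw [interior_sq, closure_osq]
  boundary := fun _ => frontier_sq_lt 0

lemma carrier_F3 (T : Tile F3) : carrier T = sq T.2 := by
  ext x
  show x - T.2 ∈ sq 0 ↔ _
  simp only [sq, Set.mem_ofPred_eq]
  refine forall_congr' fun i => ?_
  have h1 : (x - T.2) i = x i - T.2 i := rfl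
  have h2 : (0 : E 2) i = 0 := rfl
  rw [h1, h2]
  constructor
  · rintro ⟨h, h'⟩; constructor <;> linarith
  · rintro ⟨h, h'⟩; constructor <;> linarith

lemma disj_iff (v w : E 2) : Disjoint (osq v) (osq w) ↔ ∃ i, 1 ≤ |v i - w i| := by
  constructor
  · intro h
    by_contra hc
    push Not at hc
    rw [Set.disjoint_left] at h
    let y : E 2 := WithLp.toLp 2 (fun i => (v i + w i + 1) / 2)
    have hy : ∀ i, y i = (v i + w i + 1) / 2 := fun i => rfl
    refine h (a := y) ?_ ?_
    · intro i
      have := abs_lt.mp (hc i)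
      rw [hy]
      constructor <;> linarith
    · intro i
      have := abs_lt.mp (hc i)
      rw [hy]
      constructor <;> linarith
  · rintro ⟨i, hi⟩
    rw [Set.disjoint_left]
    intro x hx hx'
    have h1 := hx i
    have h2 := hx' i
    rcases le_abs.mp hi with h | h <;> linarith [h1.1, h1.2, h2.1, h2.2]

lemma packing_F3 (P : Set (Tile F3)) : Packing P ↔
    ∀ T ∈ P, ∀ T' ∈ P, T ≠ T' → ∃ i, 1 ≤ |T.2 i - T'.2 i| := by
  unfold Packing
  constructor
  · intro h T hT T' hT' hne
    have := h T hT T' hT' hne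
    rw [carrier_F3, carrier_F3, interior_sq, interior_sq, disj_iff] at this
    exact this
  · intro h T hT T' hT' hne
    rw [carrier_F3, carrier_F3, interior_sq, interior_sq, disj_iff]
    exact h T hT T' hT' hne

/-- a tile is determined by its position in a packing -/
lemma Packing.pos_inj {P : Set (Tile F3)} (h : Packing P) {T T' : Tile F3} (hT : T ∈ P)
    (hT' : T' ∈ P) (he : T.2 = T'.2) : T = T' := by
  by_contra hne
  obtain ⟨i, hi⟩ := (packing_F3 P).mp h T hT T' hT' hne
  rw [he, sub_self, abs_zero] at hi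
  linarith

/-- half open square -/
def hsq (v : E 2) : Set (E 2) := {x | ∀ i, v i ≤ x i ∧ x i < v i + 1}

lemma hsq_eq (v : E 2) : hsq v = (MeasurableEquiv.toLp 2 (Fin 2 → ℝ)).symm ⁻¹'
    (Set.univ.pi fun i => Set.Ico (v i) (v i + 1)) := by
  ext p
  simp only [hsq, Set.mem_ofPred_eq, Set.mem_preimage, Set.mem_pi, Set.mem_univ, true_imp_iff,
    Set.mem_Ico]
  rfl

lemma measurable_hsq (v : E 2) : MeasurableSet (hsq v) := by
  rw [hsq_eq]
  exact (MeasurableEquiv.measurable _) (MeasurableSet.univ_pi fun i => measurableSet_Ico)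

lemma vol_hsq (v : E 2) : volume (hsq v) = 1 := by
  rw [hsq_eq, (EuclideanSpace.volume_preserving_symm_measurableEquiv_toLp (Fin 2)).measure_preimage_equiv,
    Real.volume_pi_Ico]
  simp

lemma vol_sq (v : E 2) : volume (sq v) = 1 := by
  have : sq v = (MeasurableEquiv.toLp 2 (Fin 2 → ℝ)).symm ⁻¹'
    (Set.univ.pi fun i => Set.Icc (v i) (v i + 1)) := by
    ext p
    simp only [sq, Set.mem_ofPred_eq, Set.mem_preimage, Set.mem_pi, Set.mem_univ, true_imp_iff,
      Set.mem_Icc]
    rfl
  rw [this, (EuclideanSpace.volume_preserving_symm_measurableEquiv_toLp (Fin 2)).measure_preimage_equiv,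
    Set.pi_univ_Icc, Real.volume_Icc_pi]
  simp

lemma region_F3 (S : Set (Tile F3)) : region S = ⋃ T ∈ S, sq T.2 := by
  unfold region
  simp only [carrier_F3]

/-- the volume of a region is the number of its tiles -/
lemma vol_region (S : Set (Tile F3)) (hS : S.Finite) (hP : Packing S) :
    volume (region S) = (S.ncard : ENNReal) := by
  classical
  rw [region_F3]
  obtain ⟨s, rfl⟩ := hS.exists_finset_coe
  rw [Set.ncard_coe_finset]
  have hP' := (packing_F3 _).mp hP
  apply le_antisymm
  · have h1 : volume (⋃ T ∈ (s : Set (Tile F3)), sq T.2) ≤ ∑ T ∈ s, volume (sq T.2) := by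
      have := measure_biUnion_finset_le (μ := (volume : Measure (E 2))) s (fun T : Tile F3 => sq T.2)
      simpa using this
    refine h1.trans ?_
    simp [vol_sq]
  · have h2 : volume (⋃ T ∈ s, hsq T.2) = ∑ T ∈ s, volume (hsq T.2) := by
      apply measure_biUnion_finset
      · intro T hT T' hT' hne
        obtain ⟨i, hi⟩ := hP' T hT T' hT' hne
        show Disjoint (hsq T.2) (hsq T'.2)
        rw [Set.disjoint_left]
        intro x hx hx'
        have h1 := hx i
        have h2 := hx' i
        rcases le_abs.mp hi with h | h <;> linarith [h1.1, h1.2, h2.1, h2.2]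
      · intro T _
        exact measurable_hsq _
    have h3 : volume (⋃ T ∈ s, hsq T.2) = (s.card : ENNReal) := by
      rw [h2]
      simp [vol_hsq]
    rw [← h3]
    apply measure_mono
    intro x hx
    simp only [Set.mem_iUnion, Finset.mem_coe] at hx ⊢
    obtain ⟨T, hT, hx⟩ := hx
    exact ⟨T, hT, fun i => ⟨(hx i).1, (hx i).2.le⟩⟩

end Pool.Agent.H564R3.DR
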