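import Pool.Agent.H564R3.DR.Conds

set_option autoImplicit false

open MeasureTheory Set

namespace Pool.Agent.H564R3.DR

variable {W : Type} (b : Blk W)

/-- a tiling of the plane by Wang tiles -/
def WTiling (H V : W → W → Prop) (τ : ℤ → ℤ → W) : Prop :=
  ∀ i j, H (τ i j) (τ (i + 1) j) ∧ V (τ i j) (τ i (j + 1))

namespace Blk

lemma lam_shift (τ : ℤ → ℤ → W) (i0 j0 x y : ℤ) :
    b.lam (fun i j => τ (i + i0) (j + j0)) x y = b.lam τ (x + b.K * i0) (y + b.K * j0) := by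
  have h1 : (∃ i j : ℤ, x = b.K * i ∧ y = b.K * j) ↔
      (∃ i j : ℤ, x + b.K * i0 = b.K * i ∧ y + b.K * j0 = b.K * j) := by
    constructor
    · rintro ⟨i, j, rfl, rfl⟩
      exact ⟨i + i0, j + j0, by ring, by ring⟩
    · rintro ⟨i, j, h1, h2⟩
      refine ⟨i - i0, j - j0, ?_, ?_⟩
      · rw [mul_sub]; omega
      · rw [mul_sub]; omega
  have h2 : (∃ i j : ℤ, x = b.K * i + b.s ∧ y = b.K * j + b.s + b.code (τ (i + i0) (j + j0))) ↔
      (∃ i j : ℤ, x + b.K * i0 = b.K * i + b.s ∧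
        y + b.K * j0 = b.K * j + b.s + b.code (τ i j)) := by
    constructor
    · rintro ⟨i, j, rfl, h⟩
      refine ⟨i + i0, j + j0, by ring, ?_⟩
      rw [h]
      ring
    · rintro ⟨i, j, h1, h2⟩
      refine ⟨i - i0, j - j0, ?_, ?_⟩
      · rw [mul_sub]; omega
      · rw [sub_add_cancel, sub_add_cancel, mul_sub]; omega
  classical
  unfold lam
  exact if_congr h1 rfl (if_congr h2 rfl rfl)

variable (H V : W → W → Prop)

/-- the tiling of the plane given by a Wang tiling -/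
noncomputable def til (τ : ℤ → ℤ → W) : Set (Tile F3) :=
  {T | ∃ x y : ℤ, T = tl (b.lam τ x y) (zv x y)}

lemma til_packing (τ : ℤ → ℤ → W) : Packing (b.til τ) := by
  rw [packing_F3]
  rintro T ⟨x, y, rfl⟩ T' ⟨x', y', rfl⟩ hne
  by_contra hc
  push Not at hc
  apply hne
  have h0 := hc 0
  have h1 := hc 1
  simp only [zv_zero, zv_one] at h0 h1
  have h0' : |x - x'| < 1 := by exact_mod_cast h0
  have h1' : |y - y'| < 1 := by exact_mod_cast h1
  rw [abs_lt] at h0' h1'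
  have e0 : x = x' := by omega
  have e1 : y = y' := by omega
  rw [e0, e1]

lemma til_tiling (τ : ℤ → ℤ → W) : IsTiling (b.til τ) := by
  refine ⟨b.til_packing τ, ?_⟩
  rw [Set.eq_univ_iff_forall]
  intro p
  simp only [Set.mem_iUnion]
  refine ⟨(b.lam τ ⌊p 0⌋ ⌊p 1⌋, zv ⌊p 0⌋ ⌊p 1⌋), ⟨_, _, rfl⟩, ?_⟩
  rw [carrier_F3]
  intro i
  have f0 := Int.floor_le (p 0)
  have f1 := Int.lt_floor_add_one (p 0)
  have f2 := Int.floor_le (p 1)
  have f3 := Int.lt_floor_add_one (p 1)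
  fin_cases i
  · show (zv ⌊p 0⌋ ⌊p 1⌋) 0 ≤ p 0 ∧ p 0 ≤ (zv ⌊p 0⌋ ⌊p 1⌋) 0 + 1
    rw [zv_zero]
    exact ⟨f0, f1.le⟩
  · show (zv ⌊p 0⌋ ⌊p 1⌋) 1 ≤ p 1 ∧ p 1 ≤ (zv ⌊p 0⌋ ⌊p 1⌋) 1 + 1
    rw [zv_one]
    exact ⟨f2, f3.le⟩

lemma base_exists (t : ℝ) : ∃ i0 : ℤ, ∀ x : ℤ, t - 4 * b.K - 1 ≤ x → (x : ℝ) ≤ t + 4 * b.K →
    0 ≤ x - b.K * i0 ∧ x - b.K * i0 < 10 * b.K := by
  have hK : (2 : ℝ) < b.K := by exact_mod_cast b.two_lt
  refine ⟨⌊(t - 4 * b.K - 1) / b.K⌋, fun x h1 h2 => ?_⟩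
  set i0 := ⌊(t - 4 * b.K - 1) / b.K⌋
  have f0 : (i0 : ℝ) ≤ (t - 4 * b.K - 1) / b.K := Int.floor_le _
  have f1 : (t - 4 * b.K - 1) / b.K < i0 + 1 := Int.lt_floor_add_one _
  rw [le_div_iff₀ (by linarith)] at f0
  rw [div_lt_iff₀ (by linarith)] at f1
  constructor
  · have : ((b.K * i0 : ℤ) : ℝ) ≤ x := by push_cast; linarith
    have : b.K * i0 ≤ x := by exact_mod_cast this
    omega
  · have : (x : ℝ) < ((b.K * i0 + 10 * b.K : ℤ) : ℝ) := by push_cast; linarith
    have : x < b.K * i0 + 10 * b.K := by exact_mod_cast this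
    omega

variable {ball : E 2 → ℝ → Set (E 2)} (hball : IsBall ball)

include hball in
lemma til_legal (τ : ℤ → ℤ → W) (hτ : WTiling H V τ) : Legal ball (b.rule H V) (b.til τ) := by
  intro p
  obtain ⟨i0, hi0⟩ := b.base_exists (p 0)
  obtain ⟨j0, hj0⟩ := b.base_exists (p 1)
  refine ⟨b.cfg (fun i j => τ (i + i0) (j + j0)), ⟨_, ?_, rfl⟩,
    {T ∈ b.cfg (fun i j => τ (i + i0) (j + j0)) | ((T.1, zv (b.K * i0) (b.K * j0) + T.2) : Tile F3) ∈
      {T ∈ b.til τ | (carrier T ∩ ball p (b.rule H V).r).Nonempty}}, fun T hT => hT.1,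
    zv (b.K * i0) (b.K * j0), ?_⟩
  · intro i j _ _ _ _
    have h1 := hτ (i + i0) (j + j0)
    constructor
    · intro _
      have : i + 1 + i0 = i + i0 + 1 := by ring
      show H (τ (i + i0) (j + j0)) (τ (i + 1 + i0) (j + j0))
      rw [this]
      exact h1.1
    · intro _
      have : j + 1 + j0 = j + j0 + 1 := by ring
      show V (τ (i + i0) (j + j0)) (τ (i + i0) (j + 1 + j0))
      rw [this]
      exact h1.2
  · ext T
    constructor
    · intro hT
      have hT' := hT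
      obtain ⟨⟨x, y, rfl⟩, q, hq1, hq2⟩ := hT
      have hq : q ∈ sq (zv x y) := by
        rw [← show carrier (tl (b.lam τ x y) (zv x y)) = sq (zv x y) from carrier_F3 _]
        exact hq1
      have hq0 := hq 0
      have hq1' := hq 1
      simp only [zv_zero, zv_one] at hq0 hq1'
      have hd : dist q p ≤ 4 * b.K := dist_of_mem_ball hball p q _ hq2
      have c0 := abs_le.mp ((coord_le_dist q p 0).trans hd)
      have c1 := abs_le.mp ((coord_le_dist q p 1).trans hd)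
      obtain ⟨g1, g2⟩ := hi0 x (by linarith [c0.1, hq0.2]) (by linarith [c0.2, hq0.1])
      obtain ⟨g3, g4⟩ := hj0 y (by linarith [c1.1, hq1'.2]) (by linarith [c1.2, hq1'.1])
      have e1 : b.lam (fun i j => τ (i + i0) (j + j0)) (x - b.K * i0) (y - b.K * j0) =
          b.lam τ x y := by
        rw [lam_shift, sub_add_cancel, sub_add_cancel]
      have e2 : zv (b.K * i0) (b.K * j0) + zv (x - b.K * i0) (y - b.K * j0) = zv x y := by
        rw [zv_add]
        congr 1 <;> ring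
      refine ⟨(b.lam τ x y, zv (x - b.K * i0) (y - b.K * j0)), ⟨?_, ?_⟩, ?_⟩
      · exact ⟨_, _, g1, g2, g3, g4, by rw [e1]; rfl⟩
      · show ((b.lam τ x y, zv (b.K * i0) (b.K * j0) + zv (x - b.K * i0) (y - b.K * j0)) :
          Tile F3) ∈ _
        rw [e2]
        exact hT'
      · show ((b.lam τ x y, zv (b.K * i0) (b.K * j0) + zv (x - b.K * i0) (y - b.K * j0)) :
          Tile F3) = _
        rw [e2]
    · rintro ⟨T', ⟨_, hT'⟩, rfl⟩
      exact hT'

variable {H V}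

include hball in
/-- the grid structure of a legal tiling -/
lemma grid {P : Set (Tile F3)} (hP : IsTiling P) (hL : Legal ball (b.rule H V) P) :
    ∃ v0 : E 2, ∃ L : ℤ → ℤ → Fin 3, (∀ x y, tl (L x y) (v0 + zv x y) ∈ P) ∧
      ∀ T ∈ P, ∃ x y : ℤ, T.2 = v0 + zv x y := by
  have hK : (2 : ℝ) < b.K := by exact_mod_cast b.two_lt
  have hcov : ∀ p : E 2, ∃ T ∈ P, p ∈ sq T.2 := by
    intro p
    have h1 : p ∈ (⋃ T ∈ P, carrier T) := by rw [hP.2]; exact Set.mem_univ p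
    simp only [Set.mem_iUnion] at h1
    obtain ⟨T, hT, h2⟩ := h1
    rw [carrier_F3] at h2
    exact ⟨T, hT, h2⟩
  have hstep : ∀ (l : Fin 3) (v : E 2), tl l v ∈ P → ∀ m n : ℤ, |m| ≤ 1 → |n| ≤ 1 →
      ∃ l', tl l' (v + zv m n) ∈ P := by
    intro l v hv m n hm hn
    let y : E 2 := WithLp.toLp 2 (fun i => (v + zv m n) i + 1 / 2)
    have hy : ∀ i, y i = v i + (zv m n) i + 1 / 2 := fun i => rfl
    obtain ⟨T, hT, hyT⟩ := hcov y
    have h0 := hyT 0
    have h1 := hyT 1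
    rw [hy] at h0 h1
    rw [zv_zero] at h0
    rw [zv_one] at h1
    rw [abs_le] at hm hn
    have hm' : (-1 : ℝ) ≤ m ∧ (m : ℝ) ≤ 1 := ⟨by exact_mod_cast hm.1, by exact_mod_cast hm.2⟩
    have hn' : (-1 : ℝ) ≤ n ∧ (n : ℝ) ≤ 1 := ⟨by exact_mod_cast hn.1, by exact_mod_cast hn.2⟩
    have hd : dist v T.2 ≤ 2 * (3 / 2) := by
      apply dist_le_of_coord
      intro i
      fin_cases i
      · show |v 0 - T.2 0| ≤ 3 / 2
        rw [abs_le]
        constructor <;> linarith [h0.1, h0.2, hm'.1, hm'.2]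
      · show |v 1 - T.2 1| ≤ 3 / 2
        rw [abs_le]
        constructor <;> linarith [h1.1, h1.2, hn'.1, hn'.2]
    obtain ⟨a, c, hac⟩ := b.legal_aligned H V hball hL hv hT (by
      show dist v T.2 < _
      linarith)
    have hac' : T.2 = v + zv a c := hac
    rw [hac'] at h0 h1
    have e0 : (v + zv a c) 0 = v 0 + a := by
      have : (v + zv a c) 0 = v 0 + (zv a c) 0 := rfl
      rw [this, zv_zero]
    have e1 : (v + zv a c) 1 = v 1 + c := by
      have : (v + zv a c) 1 = v 1 + (zv a c) 1 := rfl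
      rw [this, zv_one]
    rw [e0] at h0
    rw [e1] at h1
    have f0 : a = m := by
      have g1 : (a : ℝ) < m + 1 := by linarith [h0.1]
      have g2 : (m : ℝ) < a + 1 := by linarith [h0.2]
      have g1' : a < m + 1 := by exact_mod_cast g1
      have g2' : m < a + 1 := by exact_mod_cast g2
      omega
    have f1 : c = n := by
      have g1 : (c : ℝ) < n + 1 := by linarith [h1.1]
      have g2 : (n : ℝ) < c + 1 := by linarith [h1.2]
      have g1' : c < n + 1 := by exact_mod_cast g1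
      have g2' : n < c + 1 := by exact_mod_cast g2
      omega
    refine ⟨lab T, ?_⟩
    rw [← f0, ← f1, ← hac']
    exact hT
  obtain ⟨T0, hT0, -⟩ := hcov 0
  set v0 := T0.2 with hv0
  have hrow : ∀ x : ℤ, ∃ l, tl l (v0 + zv x 0) ∈ P := by
    intro x
    induction x using Int.induction_on with
    | zero => exact ⟨lab T0, by rw [zv_00, add_zero]; exact hT0⟩
    | succ i ih =>
      obtain ⟨l, hl⟩ := ih
      have := hstep l _ hl 1 0 (by simp) (by simp)
      rw [add_assoc, zv_add] at this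
      simpa using this
    | pred i ih =>
      obtain ⟨l, hl⟩ := ih
      have := hstep l _ hl (-1) 0 (by simp) (by simp)
      rw [add_assoc, zv_add] at this
      simpa [sub_eq_add_neg] using this
  have hall : ∀ x y : ℤ, ∃ l, tl l (v0 + zv x y) ∈ P := by
    intro x y
    induction y using Int.induction_on with
    | zero => exact hrow x
    | succ i ih =>
      obtain ⟨l, hl⟩ := ih
      have := hstep l _ hl 0 1 (by simp) (by simp)
      rw [add_assoc, zv_add] at this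
      simpa using this
    | pred i ih =>
      obtain ⟨l, hl⟩ := ih
      have := hstep l _ hl 0 (-1) (by simp) (by simp)
      rw [add_assoc, zv_add] at this
      simpa [sub_eq_add_neg] using this
  choose L hLL using hall
  refine ⟨v0, L, hLL, ?_⟩
  intro T hT
  refine ⟨⌊T.2 0 + 1 / 2 - v0 0⌋, ⌊T.2 1 + 1 / 2 - v0 1⌋, ?_⟩
  set x := ⌊T.2 0 + 1 / 2 - v0 0⌋
  set y := ⌊T.2 1 + 1 / 2 - v0 1⌋
  have f0 : (x : ℝ) ≤ T.2 0 + 1 / 2 - v0 0 := Int.floor_le _
  have f1 : T.2 0 + 1 / 2 - v0 0 < x + 1 := Int.lt_floor_add_one _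
  have f2 : (y : ℝ) ≤ T.2 1 + 1 / 2 - v0 1 := Int.floor_le _
  have f3 : T.2 1 + 1 / 2 - v0 1 < y + 1 := Int.lt_floor_add_one _
  by_contra hne
  have hne' : T ≠ tl (L x y) (v0 + zv x y) := by
    intro h
    exact hne (congrArg Prod.snd h)
  obtain ⟨i, hi⟩ := (packing_F3 P).mp hP.1 T hT _ (hLL x y) hne'
  have e0 : (v0 + zv x y) 0 = v0 0 + x := by
    have : (v0 + zv x y) 0 = v0 0 + (zv x y) 0 := rfl
    rw [this, zv_zero]
  have e1 : (v0 + zv x y) 1 = v0 1 + y := by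
    have : (v0 + zv x y) 1 = v0 1 + (zv x y) 1 := rfl
    rw [this, zv_one]
  rcases fin2_cases 0 i with rfl | rfl
  · have hi' : 1 ≤ |T.2 0 - (v0 + zv x y) 0| := hi
    rw [e0] at hi'
    rcases le_abs.mp hi' with h | h <;> linarith
  · have hi' : 1 ≤ |T.2 1 - (v0 + zv x y) 1| := hi
    rw [e1] at hi'
    rcases le_abs.mp hi' with h | h <;> linarith

end Blk

end Pool.Agent.H564R3.DR
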