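import Pool.Agent.Helper777.Prof.P_tiles

set_option autoImplicit false

/-! # The Kari tile set has no tiling with a nonzero period -/

namespace Pool.Agent.H564R3.DR

open Pool.Agent.Helper777.Prof

/-- the lower label -/
def al (τ : ℤ → ℤ → KT) (i j : ℤ) : ℤ := (((τ i j).2.1 : ℕ) : ℤ)

/-- the left label -/
def sl (τ : ℤ → ℤ → KT) (i j : ℤ) : ℤ := (((τ i j).2.2.2.1 : ℕ) : ℤ)

/-- row sums -/
def rs (τ : ℤ → ℤ → KT) (n : ℕ) (i j : ℤ) : ℤ := ∑ k ∈ Finset.range n, al τ (i + k) j

variable {τ : ℤ → ℤ → KT} (hτ : Tiling kH kV τ)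

lemma al_le (i j : ℤ) : al τ i j ≤ 6 := by
  unfold al
  have := (τ i j).2.1.isLt
  omega

lemma sl_bd (i j : ℤ) : 0 ≤ sl τ i j ∧ sl τ i j ≤ 3 := by
  unfold sl
  have := (τ i j).2.2.2.1.isLt
  omega

include hτ in
lemma one_le_al (i j : ℤ) : 1 ≤ al τ i j := by
  unfold al
  have := (hτ i j).1.1.1
  exact_mod_cast this

include hτ in
lemma row_bool (i j : ℤ) : (τ i j).1 = (τ 0 j).1 := by
  have hstep : ∀ i : ℤ, (τ (i + 1) j).1 = (τ i j).1 := fun i => ((hτ i j).1.2.1).symm
  induction i using Int.induction_on with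
  | zero => rfl
  | succ i ih => rw [hstep]; exact ih
  | pred i ih =>
    have := hstep (-(i : ℤ) - 1)
    rw [sub_add_cancel] at this
    rw [← this]
    exact ih

include hτ in
lemma rel (i j : ℤ) :
    ((τ 0 j).1 = true → 2 * al τ i j + sl τ i j = al τ i (j + 1) + sl τ (i + 1) j) ∧
    ((τ 0 j).1 = false → al τ i j + sl τ i j = 3 * al τ i (j + 1) + sl τ (i + 1) j) := by
  have h1 := (hτ i j).1.1.2
  have h2 : (τ i j).2.2.1 = (τ i (j + 1)).2.1 := (hτ i j).2
  have h3 : (τ i j).2.2.2.2 = (τ (i + 1) j).2.2.2.1 := (hτ i j).1.2.2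
  rw [h2, h3, row_bool hτ i j] at h1
  unfold al sl
  constructor
  · intro h
    have := h1.1 h
    exact_mod_cast this
  · intro h
    have := h1.2 h
    exact_mod_cast this

lemma sl_tel (n : ℕ) (i j : ℤ) : ∑ k ∈ Finset.range n, sl τ (i + k + 1) j =
    ∑ k ∈ Finset.range n, sl τ (i + k) j + sl τ (i + n) j - sl τ i j := by
  induction n with
  | zero => simp
  | succ n ih =>
    rw [Finset.sum_range_succ, Finset.sum_range_succ, ih]
    push_cast
    rw [add_assoc i (n : ℤ) 1]
    ring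

include hτ in
lemma rs_rel (n : ℕ) (i j : ℤ) :
    ((τ 0 j).1 = true → 2 * rs τ n i j = rs τ n i (j + 1) + (sl τ (i + n) j - sl τ i j)) ∧
    ((τ 0 j).1 = false → rs τ n i j = 3 * rs τ n i (j + 1) + (sl τ (i + n) j - sl τ i j)) := by
  have ht := sl_tel (τ := τ) n i j
  constructor
  · intro h
    have h1 : ∑ k ∈ Finset.range n, (2 * al τ (i + k) j + sl τ (i + k) j) =
        ∑ k ∈ Finset.range n, (al τ (i + k) (j + 1) + sl τ (i + k + 1) j) :=
      Finset.sum_congr rfl fun k _ => (rel hτ _ j).1 h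
    rw [Finset.sum_add_distrib, Finset.sum_add_distrib, ← Finset.mul_sum, ht] at h1
    unfold rs
    linarith
  · intro h
    have h1 : ∑ k ∈ Finset.range n, (al τ (i + k) j + sl τ (i + k) j) =
        ∑ k ∈ Finset.range n, (3 * al τ (i + k) (j + 1) + sl τ (i + k + 1) j) :=
      Finset.sum_congr rfl fun k _ => (rel hτ _ j).2 h
    rw [Finset.sum_add_distrib, Finset.sum_add_distrib, ← Finset.mul_sum, ht] at h1
    unfold rs
    linarith

include hτ in
lemma le_rs (n : ℕ) (i j : ℤ) : (n : ℤ) ≤ rs τ n i j := by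
  unfold rs
  have : ∑ k ∈ Finset.range n, (1 : ℤ) ≤ ∑ k ∈ Finset.range n, al τ (i + k) j :=
    Finset.sum_le_sum fun k _ => one_le_al hτ _ _
  simpa using this

lemma rs_le (n : ℕ) (i j : ℤ) : rs τ n i j ≤ 6 * n := by
  unfold rs
  have : ∑ k ∈ Finset.range n, al τ (i + k) j ≤ ∑ k ∈ Finset.range n, (6 : ℤ) :=
    Finset.sum_le_sum fun k _ => al_le _ _
  rw [Finset.sum_const, Finset.card_range, nsmul_eq_mul] at this
  linarith

lemma rs_shift (n : ℕ) (i j : ℤ) : rs τ n (i + 1) j = rs τ n i j + al τ (i + n) j - al τ i j := by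
  unfold rs
  induction n with
  | zero => simp
  | succ n ih =>
    rw [Finset.sum_range_succ, Finset.sum_range_succ, ih]
    push_cast
    rw [show i + 1 + (n : ℤ) = i + (n + 1) by ring]
    ring

include hτ in
lemma rs_shift_le (n : ℕ) (i j : ℤ) (k : ℕ) : |rs τ n (i + k) j - rs τ n i j| ≤ 5 * k := by
  induction k with
  | zero => simp
  | succ k ih =>
    have h1 := rs_shift (τ := τ) n (i + k) j
    have h2 := one_le_al hτ (i + k + n) j
    have h3 := al_le (τ := τ) (i + k + n) j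
    have h4 := one_le_al hτ (i + k) j
    have h5 := al_le (τ := τ) (i + k) j
    rw [abs_le] at ih ⊢
    push_cast
    rw [← add_assoc, h1]
    constructor <;> linarith [ih.1, ih.2]

include hτ in
lemma approx (m : ℕ) : ∃ α β : ℕ, ∃ C : ℤ, α + β = m ∧ ∀ (n : ℕ) (i : ℤ),
    |3 ^ β * rs τ n i m - 2 ^ α * rs τ n i 0| ≤ C := by
  induction m with
  | zero => exact ⟨0, 0, 0, rfl, fun n i => by simp⟩
  | succ m ih =>
    obtain ⟨α, β, C, h1, h2⟩ := ih
    cases hb : (τ 0 (m : ℤ)).1 with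
    | true =>
      refine ⟨α + 1, β, 2 * C + 3 * 3 ^ β, by omega, fun n i => ?_⟩
      have h3 := (rs_rel hτ n i m).1 hb
      have h4 := h2 n i
      have h5 := sl_bd (τ := τ) (i + n) m
      have h6 := sl_bd (τ := τ) i m
      have h7 : (3 : ℤ) ^ β * rs τ n i ((m + 1 : ℕ) : ℤ) - 2 ^ (α + 1) * rs τ n i 0 =
          2 * (3 ^ β * rs τ n i m - 2 ^ α * rs τ n i 0) -
            3 ^ β * (sl τ (i + n) m - sl τ i m) := by
        have : rs τ n i ((m + 1 : ℕ) : ℤ) = 2 * rs τ n i m - (sl τ (i + n) m - sl τ i m) := by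
          push_cast
          linarith
        rw [this, pow_succ]
        ring
      rw [h7]
      have hp : (0 : ℤ) < 3 ^ β := by positivity
      have h8 : |(3 : ℤ) ^ β * (sl τ (i + n) m - sl τ i m)| ≤ 3 * 3 ^ β := by
        rw [abs_mul, abs_of_pos hp, mul_comm]
        apply mul_le_mul_of_nonneg_right _ hp.le
        rw [abs_le]
        constructor <;> linarith [h5.1, h5.2, h6.1, h6.2]
      rw [abs_le] at h4 h8 ⊢
      constructor <;> linarith [h4.1, h4.2, h8.1, h8.2]
    | false =>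
      refine ⟨α, β + 1, C + 3 * 3 ^ β, by omega, fun n i => ?_⟩
      have h3 := (rs_rel hτ n i m).2 hb
      have h4 := h2 n i
      have h5 := sl_bd (τ := τ) (i + n) m
      have h6 := sl_bd (τ := τ) i m
      have h7 : (3 : ℤ) ^ (β + 1) * rs τ n i ((m + 1 : ℕ) : ℤ) - 2 ^ α * rs τ n i 0 =
          (3 ^ β * rs τ n i m - 2 ^ α * rs τ n i 0) -
            3 ^ β * (sl τ (i + n) m - sl τ i m) := by
        have : 3 * rs τ n i ((m + 1 : ℕ) : ℤ) = rs τ n i m - (sl τ (i + n) m - sl τ i m) := by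
          push_cast
          linarith
        rw [pow_succ, mul_assoc, this]
        ring
      rw [h7]
      have hp : (0 : ℤ) < 3 ^ β := by positivity
      have h8 : |(3 : ℤ) ^ β * (sl τ (i + n) m - sl τ i m)| ≤ 3 * 3 ^ β := by
        rw [abs_mul, abs_of_pos hp, mul_comm]
        apply mul_le_mul_of_nonneg_right _ hp.le
        rw [abs_le]
        constructor <;> linarith [h5.1, h5.2, h6.1, h6.2]
      rw [abs_le] at h4 h8 ⊢
      constructor <;> linarith [h4.1, h4.2, h8.1, h8.2]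

include hτ in
/-- no period with positive vertical component -/
lemma no_vert (a : ℤ) (m : ℕ) (hm : 0 < m) (hper : ∀ i j, τ (i + a) (j + m) = τ i j) : False := by
  obtain ⟨α, β, C, h1, h2⟩ := approx hτ m
  have h3 : ∀ n, rs τ n a m = rs τ n 0 0 := by
    intro n
    unfold rs al
    apply Finset.sum_congr rfl
    intro k _
    have := hper k 0
    rw [zero_add] at this
    rw [add_comm a (k : ℤ), this, zero_add]
  have h4 : ∀ n, |rs τ n a 0 - rs τ n 0 0| ≤ 5 * |a| := by
    intro n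
    rcases le_total 0 a with ha | ha
    · have := rs_shift_le hτ n 0 0 a.natAbs
      rw [zero_add, Int.natCast_natAbs, abs_of_nonneg ha] at this
      rw [abs_of_nonneg ha]
      exact this
    · have := rs_shift_le hτ n a 0 a.natAbs
      rw [Int.natCast_natAbs, abs_of_nonpos ha, add_neg_cancel, abs_sub_comm] at this
      rw [abs_of_nonpos ha]
      exact this
  have h5 : ∀ n : ℕ, |((3 : ℤ) ^ β - 2 ^ α) * rs τ n 0 0| ≤ C + 2 ^ α * (5 * |a|) := by
    intro n
    have h6 := h2 n a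
    rw [h3] at h6
    have h7 := h4 n
    have h8 : ((3 : ℤ) ^ β - 2 ^ α) * rs τ n 0 0 = (3 ^ β * rs τ n 0 0 - 2 ^ α * rs τ n a 0) +
        2 ^ α * (rs τ n a 0 - rs τ n 0 0) := by ring
    rw [h8]
    refine (abs_add_le _ _).trans ?_
    have hp : (0 : ℤ) < 2 ^ α := by positivity
    have h9 : |(2 : ℤ) ^ α * (rs τ n a 0 - rs τ n 0 0)| ≤ 2 ^ α * (5 * |a|) := by
      rw [abs_mul, abs_of_pos hp]
      exact mul_le_mul_of_nonneg_left h7 hp.le
    linarith
  by_cases he : (3 : ℤ) ^ β = 2 ^ α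
  · exact kpow α β (by exact_mod_cast he) (by omega)
  · have h6 : 1 ≤ |(3 : ℤ) ^ β - 2 ^ α| := Int.one_le_abs (sub_ne_zero.mpr he)
    have h7 := h5 (C + 2 ^ α * (5 * |a|) + 1).toNat
    rw [abs_mul] at h7
    have h8 := le_rs hτ (C + 2 ^ α * (5 * |a|) + 1).toNat 0 0
    have h9 : C + 2 ^ α * (5 * |a|) + 1 ≤ ((C + 2 ^ α * (5 * |a|) + 1).toNat : ℤ) :=
      Int.self_le_toNat _
    have h10 := le_abs_self (rs τ (C + 2 ^ α * (5 * |a|) + 1).toNat 0 0)
    have h11 : |rs τ (C + 2 ^ α * (5 * |a|) + 1).toNat 0 0| ≤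
        |(3 : ℤ) ^ β - 2 ^ α| * |rs τ (C + 2 ^ α * (5 * |a|) + 1).toNat 0 0| :=
      le_mul_of_one_le_left (abs_nonneg _) h6
    linarith

include hτ in
/-- no horizontal period -/
lemma no_hor (n : ℕ) (hn : 0 < n) (hper : ∀ i j, τ (i + n) j = τ i j) : False := by
  have hs : ∀ j, sl τ ((0 : ℤ) + n) j = sl τ 0 j := by
    intro j
    unfold sl
    rw [hper]
  have hrel : ∀ j : ℤ, ((τ 0 j).1 = true → 2 * rs τ n 0 j = rs τ n 0 (j + 1)) ∧
      ((τ 0 j).1 = false → rs τ n 0 j = 3 * rs τ n 0 (j + 1)) := by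
    intro j
    have h1 := rs_rel hτ n 0 j
    rw [hs, sub_self, add_zero, add_zero] at h1
    exact h1
  have hind : ∀ (j : ℤ) (k : ℕ), ∃ α β : ℕ, α + β = k ∧
      3 ^ β * rs τ n 0 (j + k) = 2 ^ α * rs τ n 0 j := by
    intro j k
    induction k with
    | zero => exact ⟨0, 0, rfl, by simp⟩
    | succ k ih =>
      obtain ⟨α, β, h1, h2⟩ := ih
      cases hb : (τ 0 (j + k)).1 with
      | true =>
        refine ⟨α + 1, β, by omega, ?_⟩
        have h3 := (hrel (j + k)).1 hb
        push_cast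
        rw [← add_assoc, ← h3, pow_succ]
        linarith
      | false =>
        refine ⟨α, β + 1, by omega, ?_⟩
        have h3 := (hrel (j + k)).2 hb
        push_cast
        rw [← add_assoc, pow_succ, mul_assoc, ← h3]
        exact h2
  have hlt : ∀ j : ℕ, (rs τ n 0 j).toNat < 6 * n + 1 := by
    intro j
    have := rs_le (τ := τ) n 0 j
    omega
  obtain ⟨j, j', hne, he⟩ := Finite.exists_ne_map_eq_of_infinite
    (fun j : ℕ => (⟨(rs τ n 0 j).toNat, hlt j⟩ : Fin (6 * n + 1)))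
  have he' : rs τ n 0 j = rs τ n 0 j' := by
    have h1 := Fin.mk.inj_iff.mp he
    have h2 := le_rs hτ n 0 j
    have h3 := le_rs hτ n 0 j'
    omega
  have key : ∀ j j' : ℕ, j < j' → rs τ n 0 j = rs τ n 0 j' → False := by
    intro j j' hlt he
    obtain ⟨α, β, h1, h2⟩ := hind j (j' - j)
    have h3 : (j : ℤ) + ((j' - j : ℕ) : ℤ) = j' := by omega
    rw [h3, ← he] at h2
    have h4 := le_rs hτ n 0 j
    have h5 : rs τ n 0 j ≠ 0 := by omega
    have h6 := mul_right_cancel₀ h5 h2
    exact kpow α β (by exact_mod_cast h6) (by omega)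
  rcases lt_or_gt_of_ne hne with h | h
  · exact key j j' h he'
  · exact key j' j h he'.symm

include hτ in
/-- the Kari tile set admits no tiling with a nonzero period -/
theorem no_period (a c : ℤ) (hper : ∀ i j, τ (i + a) (j + c) = τ i j) : a = 0 ∧ c = 0 := by
  have hper' : ∀ i j, τ (i + -a) (j + -c) = τ i j := by
    intro i j
    have := hper (i + -a) (j + -c)
    rw [neg_add_cancel_right, neg_add_cancel_right] at this
    exact this.symm
  rcases lt_trichotomy c 0 with h | h | h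
  · exfalso
    refine no_vert hτ (-a) c.natAbs (by omega) ?_
    intro i j
    have : ((c.natAbs : ℕ) : ℤ) = -c := by omega
    rw [this]
    exact hper' i j
  · subst h
    refine ⟨?_, rfl⟩
    by_contra ha
    rcases lt_or_gt_of_ne ha with h | h
    · refine no_hor hτ a.natAbs (by omega) ?_
      intro i j
      have : ((a.natAbs : ℕ) : ℤ) = -a := by omega
      rw [this]
      have := hper' i j
      simpa using this
    · refine no_hor hτ a.natAbs (by omega) ?_
      intro i j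
      have : ((a.natAbs : ℕ) : ℤ) = a := by omega
      rw [this]
      have := hper i j
      simpa using this
  · exfalso
    refine no_vert hτ a c.natAbs (by omega) ?_
    intro i j
    have : ((c.natAbs : ℕ) : ℤ) = c := by omega
    rw [this]
    exact hper i j

end Pool.Agent.H564R3.DR
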